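import Pool.Agent.Lib.MP_09d3b1_an.Sharp.Line

/-!
The calibration inequality on the circle, by the Cayley transform.
-/

set_option autoImplicit false

open Set Finset MeasureTheory ENNReal Real Filter Topology

namespace Pool.Agent.Lib.MP_09d3b1_an.Sharp

/-- The chordal kernel in the angles. -/
noncomputable def kk (θ φ : ℝ) : ℝ≥0∞ :=
  ENNReal.ofReal (1 / ‖(Circle.exp φ : ℂ) - (Circle.exp θ : ℂ)‖ ^ 2)

theorem chord (θ φ : ℝ) :
    ‖(Circle.exp φ : ℂ) - (Circle.exp θ : ℂ)‖ ^ 2 = 4 * sin ((φ - θ) / 2) ^ 2 := by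
  have h : cos (φ - θ) = 1 - 2 * sin ((φ - θ) / 2) ^ 2 := by
    have := cos_two_mul ((φ - θ) / 2)
    rw [show 2 * ((φ - θ) / 2) = φ - θ by ring] at this
    linarith [sin_sq_add_cos_sq ((φ - θ) / 2)]
  rw [Complex.sq_norm, Complex.normSq_apply]
  simp only [Circle.coe_exp, Complex.sub_re, Complex.sub_im, Complex.exp_ofReal_mul_I_re,
    Complex.exp_ofReal_mul_I_im]
  rw [cos_sub] at h
  nlinarith [sin_sq_add_cos_sq θ, sin_sq_add_cos_sq φ]

open Classical in
/-- The mass of a relation between angles, on the window of length `2π` that starts at `a`. -/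
noncomputable def Mu (E : ℝ → ℝ → Prop) (a : ℝ) : ℝ≥0∞ :=
  ∫⁻ θ in Set.Ioc a (a + 2 * π), ∫⁻ φ in Set.Ioc a (a + 2 * π), if E θ φ then kk θ φ else 0

theorem lint_shift {G : ℝ → ℝ≥0∞} (hG : Function.Periodic G (2 * π)) (a b : ℝ) :
    ∫⁻ θ in Set.Ioc a (a + 2 * π), G θ = ∫⁻ θ in Set.Ioc b (b + 2 * π), G θ := by
  have : Fact (0 < 2 * π) := ⟨two_pi_pos⟩
  have := fun c => AddCircle.lintegral_preimage (2 * π) c hG.lift
  simp only [Function.Periodic.lift_coe] at this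
  rw [this, this]

theorem kk_left (θ φ : ℝ) : kk (θ + 2 * π) φ = kk θ φ := by
  simp only [kk, Circle.exp_add_two_pi]

theorem kk_right (θ φ : ℝ) : kk θ (φ + 2 * π) = kk θ φ := by
  simp only [kk, Circle.exp_add_two_pi]

open Classical in
theorem inner_shift {E : ℝ → ℝ → Prop} (h2 : ∀ θ φ, E θ (φ + 2 * π) ↔ E θ φ) (θ a b : ℝ) :
    (∫⁻ φ in Set.Ioc a (a + 2 * π), if E θ φ then kk θ φ else 0) =
      ∫⁻ φ in Set.Ioc b (b + 2 * π), if E θ φ then kk θ φ else 0 :=
  lint_shift (fun φ => if_congr (h2 θ φ) (kk_right θ φ) rfl) a b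

open Classical in
theorem Mu_shift {E : ℝ → ℝ → Prop} (h1 : ∀ θ φ, E (θ + 2 * π) φ ↔ E θ φ)
    (h2 : ∀ θ φ, E θ (φ + 2 * π) ↔ E θ φ) (a b : ℝ) : Mu E a = Mu E b := by
  unfold Mu
  simp only [inner_shift h2 _ a b]
  exact lint_shift (fun θ => lintegral_congr fun φ => if_congr (h1 θ φ) (kk_left θ φ) rfl) a b

/-- The Cayley parametrisation of the window. -/
noncomputable def cay (a x : ℝ) : ℝ := a + π + 2 * arctan x

theorem cay_mono (a : ℝ) : StrictMono (cay a) := fun x y h => by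
  have := arctan_strictMono h
  unfold cay
  linarith

theorem cay_mem (a x : ℝ) : cay a x ∈ Set.Ioo a (a + 2 * π) := by
  have := neg_pi_div_two_lt_arctan x
  have := arctan_lt_pi_div_two x
  unfold cay
  constructor <;> linarith

theorem cay_tan {a θ : ℝ} (h : θ ∈ Set.Ioo a (a + 2 * π)) : cay a (tan ((θ - a - π) / 2)) = θ := by
  unfold cay
  rw [arctan_tan (by linarith [h.1]) (by linarith [h.2])]
  ring

theorem cay_cont (a : ℝ) : Continuous (cay a) := by
  unfold cay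
  fun_prop

theorem lint_cay (a : ℝ) (g : ℝ → ℝ≥0∞) : ∫⁻ θ in Set.Ioc a (a + 2 * π), g θ =
    ∫⁻ x, ENNReal.ofReal (2 / (1 + x ^ 2)) * g (cay a x) := by
  have := lintegral_image_eq_lintegral_abs_deriv_mul (f := cay a) (s := Set.univ)
    (f' := fun x => 2 / (1 + x ^ 2)) MeasurableSet.univ (fun x _ => by
      refine ((((hasDerivAt_arctan x).const_mul 2).const_add (a + π)).congr_deriv ?_).hasDerivWithinAt
      ring) (cay_mono a).injective.injOn g
  rw [Measure.restrict_univ, show cay a '' Set.univ = Set.Ioo a (a + 2 * π) from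
    Set.ext fun θ => ⟨fun ⟨x, _, h⟩ => h ▸ cay_mem a x, fun h => ⟨_, trivial, cay_tan h⟩⟩,
    setLIntegral_congr Ioo_ae_eq_Ioc] at this
  rw [this]
  exact lintegral_congr fun x => by rw [abs_of_pos (by positivity)]

theorem kern (a x y : ℝ) : ENNReal.ofReal (2 / (1 + x ^ 2)) *
    (ENNReal.ofReal (2 / (1 + y ^ 2)) * kk (cay a x) (cay a y)) = K x y := by
  have hx : 0 < 1 + x ^ 2 := by positivity
  have hy : 0 < 1 + y ^ 2 := by positivity
  rw [kk, chord, K, ← ENNReal.ofReal_mul (by positivity), ← ENNReal.ofReal_mul (by positivity),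
    show (cay a y - cay a x) / 2 = arctan y - arctan x by unfold cay; ring, sin_sub, sin_arctan,
    cos_arctan, sin_arctan, cos_arctan]
  congr 1
  have sx := Real.sqrt_pos.2 hx
  have sy := Real.sqrt_pos.2 hy
  rw [show y / √(1 + y ^ 2) * (1 / √(1 + x ^ 2)) - 1 / √(1 + y ^ 2) * (x / √(1 + x ^ 2)) =
    (y - x) / (√(1 + y ^ 2) * √(1 + x ^ 2)) by field_simp, div_pow, mul_pow, Real.sq_sqrt hx.le,
    Real.sq_sqrt hy.le]
  rcases eq_or_ne x y with h | h
  · simp [h]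
  · have := sub_ne_zero.2 h
    have := sub_ne_zero.2 h.symm
    field_simp
    ring

theorem nu_eq (a : ℝ) {E : ℝ → ℝ → Prop}
    (hE : MeasurableSet {q : ℝ × ℝ | E (cay a q.1) (cay a q.2)}) :
    nu {q : ℝ × ℝ | E (cay a q.1) (cay a q.2)} = Mu E a := by
  rw [nu_apply hE, Mu, lint_cay]
  refine lintegral_congr fun x => ?_
  rw [lint_cay, ← lintegral_const_mul' _ _ ENNReal.ofReal_ne_top,
    ← lintegral_indicator (measurable_prodMk_left hE)]
  refine lintegral_congr fun y => ?_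
  by_cases h : E (cay a x) (cay a y)
  · rw [if_pos h, kern, Set.indicator_of_mem (by exact h)]
  · rw [if_neg h, Set.indicator_of_notMem (by exact h), mul_zero, mul_zero]

open Classical in
theorem circ (a : ℝ) (l : ℕ) (t : ℕ → ℝ) (ht : ∀ i j, i < j → j ≤ 2 * l → t i < t j)
    (h0 : ∀ m ≤ 2 * l, t m ∈ Set.Ioo a (a + 2 * π)) {S T : Set ℝ}
    (hS : MeasurableSet S) (mT : MeasurableSet T) (σ : ℕ → Prop) (σ' : Prop)
    (h1 : ∀ m ≤ 2 * l, ∀ᶠ x in 𝓝 (t m), (x ∈ S ↔ σ m))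
    (h2 : ∀ᶠ x in 𝓝[<] (a + 2 * π), (x ∈ S ↔ σ')) (h3 : ∀ᶠ x in 𝓝[>] a, (x ∈ S ↔ σ'))
    (hT : ∀ x ∈ Set.Ioo a (a + 2 * π), ∀ m, m ≤ 2 * l + 1 → (∀ i < m, t i < x) →
      (∀ i, m ≤ i → i ≤ 2 * l → x < t i) → (x ∈ T ↔ Odd m)) :
    ENNReal.ofReal (2 * Real.log 2 * (∑ m ∈ range (2 * l + 1), (-1) ^ m * (if σ m then 1 else 0) -
      if σ' then 1 else 0)) ≤ Mu (fun x y => ¬ (x ∈ T ↔ y ∈ T) ∧ x ∈ S ∧ y ∉ S) a := by
  have c := cay_cont a
  have e : ∀ m ≤ 2 * l, cay a (tan ((t m - a - π) / 2)) = t m := fun m hm => cay_tan (h0 m hm)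
  have lt : ∀ {x y}, x < y ↔ cay a x < cay a y := (cay_mono a).lt_iff_lt.symm
  have ms := c.measurable hS
  have mt := c.measurable mT
  rw [← nu_eq a (E := fun x y => ¬ (x ∈ T ↔ y ∈ T) ∧ x ∈ S ∧ y ∉ S)
    (((measurable_fst mt).iff (measurable_snd mt)).compl.inter
      ((measurable_fst ms).inter (measurable_snd ms).compl))]
  refine line l (fun m => tan ((t m - a - π) / 2)) (fun i j h hj => ?_) (S := cay a ⁻¹' S)
    (T := cay a ⁻¹' T) ms σ σ' (fun m hm => ?_) ?_ ?_ fun x m hm p q =>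
      hT _ (cay_mem a x) m hm (fun i hi => ?_) fun i hi hl => ?_
  · rw [lt, e i (by omega), e j hj]
    exact ht i j h hj
  · exact (c.tendsto' _ _ (e m hm)).eventually (h1 m hm)
  · refine Tendsto.eventually (tendsto_nhdsWithin_iff.2 ⟨?_, .of_forall fun x => (cay_mem a x).2⟩) h2
    have := ((tendsto_arctan_atTop.mono_right nhdsWithin_le_nhds).const_mul 2).const_add (a + π)
    rwa [show a + π + 2 * (π / 2) = a + 2 * π by ring] at this
  · refine Tendsto.eventually (tendsto_nhdsWithin_iff.2 ⟨?_, .of_forall fun x => (cay_mem a x).1⟩) h3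
    have := ((tendsto_arctan_atBot.mono_right nhdsWithin_le_nhds).const_mul 2).const_add (a + π)
    rwa [show a + π + 2 * -(π / 2) = a by ring] at this
  · rw [← e i (by omega)]
    exact lt.1 (p i hi)
  · rw [← e i hl]
    exact lt.1 (q i hi hl)

end Pool.Agent.Lib.MP_09d3b1_an.Sharp
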