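import Mathlib

/-!
The degree of a map from the unit circle to the circle `ℝ / 2πℤ` of length `2π`.
-/

set_option autoImplicit false

open scoped Real

namespace Pool.Agent.Lib.MP_09d3b1_an.Sharp

/-- `f` has degree `d`: it has a continuous real lift `u`, `f(e^{iθ}) = u(θ) mod 2π`, with
`u(θ + 2π) = u(θ) + 2πd`. -/
def HasDeg (f : C(Circle, AddCircle (2 * π))) (d : ℤ) : Prop :=
  ∃ u : ℝ → ℝ, Continuous u ∧ (∀ θ, f (Circle.exp θ) = (u θ : AddCircle (2 * π))) ∧
    ∀ θ, u (θ + 2 * π) = u θ + 2 * π * d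

end Pool.Agent.Lib.MP_09d3b1_an.Sharp
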