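import Pool.Agent.Lib.MP_09d3b1_an.Sharp.Grid

/-!
The lower bound for the mass of the pairs whose images are far apart, in terms of the degree.
-/

set_option autoImplicit false

open Set Finset MeasureTheory ENNReal Real Filter Topology

namespace Pool.Agent.Lib.MP_09d3b1_an.Sharp

theorem sum_lint {ι : Type} (s : Finset ι) (μ : Measure ℝ) (f : ι → ℝ → ℝ≥0∞) :
    ∑ j ∈ s, ∫⁻ x, f j x ∂μ ≤ ∫⁻ x, ∑ j ∈ s, f j x ∂μ := by
  classical
  induction s using Finset.induction_on with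
  | empty => simp
  | insert a s ha ih =>
    simp only [sum_insert ha]
    exact (add_le_add le_rfl ih).trans (le_lintegral_add _ _)

open Classical in
theorem Mu_sum {ι : Type} (s : Finset ι) (R : ι → ℝ → ℝ → Prop) (E : ℝ → ℝ → Prop) (c : ℕ)
    (h1 : ∀ x y, (s.filter fun j => R j x y).card ≤ c) (h2 : ∀ j ∈ s, ∀ x y, R j x y → E x y) :
    ∑ j ∈ s, Mu (R j) 0 ≤ c * Mu E 0 := by
  unfold Mu
  rw [← lintegral_const_mul' _ _ (ENNReal.natCast_ne_top c)]
  refine (sum_lint _ _ _).trans (lintegral_mono fun x => ?_)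
  rw [← lintegral_const_mul' _ _ (ENNReal.natCast_ne_top c)]
  refine (sum_lint _ _ _).trans (lintegral_mono fun y => ?_)
  rw [← sum_filter, sum_const, nsmul_eq_mul]
  by_cases h : E x y
  · rw [if_pos h]
    exact mul_le_mul_left (Nat.cast_le.2 (h1 x y)) _
  · rw [filter_eq_empty_iff.2 fun j hj r => h (h2 j hj x y r)]
    simp

theorem unif {u : ℝ → ℝ} (hu : Continuous u) {d : ℝ} (hd : ∀ θ, u (θ + 2 * π) = u θ + 2 * π * d) :
    UniformContinuous u := by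
  have : Fact (0 < 2 * π) := ⟨two_pi_pos⟩
  have p : Function.Periodic (fun θ => u θ - d * θ) (2 * π) := fun θ => by
    simp only [hd]
    ring
  have c : Continuous (p.lift : AddCircle (2 * π) → ℝ) :=
    Continuous.quotient_liftOn' (by fun_prop) _
  have q : UniformContinuous fun θ : ℝ => (θ : AddCircle (2 * π)) :=
    uniformContinuous_addMonoidHom_of_continuous (f := QuotientAddGroup.mk' _)
      (AddCircle.continuous_mk' _)
  have := ((CompactSpace.uniformContinuous_of_continuous c).comp q).add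
    (uniformContinuous_id.const_mul' d)
  convert this using 2 with θ
  simp [Function.Periodic.lift_coe]

theorem md {n z ρ q : ℤ} (h : z = ρ + n * q) (h0 : 0 ≤ ρ) (h1 : ρ < n) : z % n = ρ ∧ z / n = q := by
  have := (Int.ediv_emod_unique (a := z) (r := ρ) (q := q) (h0.trans_lt h1)).2 ⟨h.symm, h0, h1⟩
  exact this.symm

theorem succ_md {n : ℤ} (hn : 0 < n) (z : ℤ) :
    (z % n = n - 1 ∧ (z + 1) % n = 0 ∧ (z + 1) / n = z / n + 1) ∨
      (0 ≤ z % n ∧ z % n < n - 1 ∧ (z + 1) % n = z % n + 1 ∧ (z + 1) / n = z / n) := by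
  have e := Int.emod_add_mul_ediv z n
  have a := Int.emod_nonneg z hn.ne'
  have b := Int.emod_lt_of_pos z hn
  rcases (Int.le_sub_one_of_lt b).eq_or_lt with h | h
  · exact .inl ⟨h, md (by rw [mul_add]; omega) le_rfl hn⟩
  · exact .inr ⟨a, h, md (by omega) (by omega) (by omega)⟩

open Classical in
theorem step {n m a b : ℤ} (h1 : 1 ≤ m) (h2 : m ≤ n - 3) (h : |b - a| ≤ 1) :
    (¬ (a % n ≤ m ↔ b % n ≤ m) → ((a % n = 0 ∨ a % n = n - 1) ↔ (b % n = 0 ∨ b % n = n - 1))) ∧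
      ((if b % n ≤ m then 1 else 0) - if a % n ≤ m then 1 else 0) *
        (if a % n = 0 ∨ a % n = n - 1 then 1 else 0) = ((b / n : ℤ) : ℝ) - (a / n : ℤ) := by
  have hn : 0 < n := by omega
  rw [abs_le] at h
  suffices H : _ ∧ ((if b % n ≤ m then 1 else 0) - if a % n ≤ m then 1 else 0) *
      (if a % n = 0 ∨ a % n = n - 1 then 1 else 0) = b / n - a / n from
    ⟨H.1, by exact_mod_cast H.2⟩
  rcases (by omega : b = a ∨ b = a + 1 ∨ a = b + 1) with rfl | rfl | rfl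
  · simp
  · have := succ_md hn a
    exact ⟨by omega, by split_ifs <;> omega⟩
  · have := succ_md hn b
    exact ⟨by omega, by split_ifs <;> omega⟩

/-- The relation between levels that the calibration with parameters `(i, m)` sees. -/
def Rel (n : ℤ) (j : ℤ × ℤ) (a b : ℤ) : Prop :=
  ¬ ((a - j.1) % n ≤ j.2 ↔ (b - j.1) % n ≤ j.2) ∧ ((a - j.1) % n = 0 ∨ (a - j.1) % n = n - 1) ∧
    ¬ ((b - j.1) % n = 0 ∨ (b - j.1) % n = n - 1)

theorem Rel.spec {n a b : ℤ} {j : ℤ × ℤ} (h1 : 1 ≤ j.2) (h2 : j.2 ≤ n - 3) (h : Rel n j a b) :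
    (b - a) % n ≤ n - 2 ∧ 2 ≤ (b - a) % n ∧ (((a - j.1) % n = 0 ∧ j.2 < (b - a) % n) ∨
      ((a - j.1) % n = n - 1 ∧ (b - a) % n ≤ j.2 + 1)) := by
  have hn : 0 < n := by omega
  have e := Int.emod_add_mul_ediv (a - j.1) n
  have e' := Int.emod_add_mul_ediv (b - j.1) n
  have p := Int.emod_nonneg (b - j.1) hn.ne'
  have q := Int.emod_lt_of_pos (b - j.1) hn
  obtain ⟨x, y | y, z⟩ := h
  · have := (md (n := n) (z := b - a) (ρ := (b - j.1) % n) (q := (b - j.1) / n - (a - j.1) / n)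
      (by rw [mul_sub]; omega) p q).1
    omega
  · have := (md (n := n) (z := b - a) (ρ := (b - j.1) % n + 1)
      (q := (b - j.1) / n - (a - j.1) / n - 1) (by rw [mul_sub, mul_sub]; omega) (by omega)
      (by omega)).1
    omega

open Classical in
theorem Rel.card (n : ℕ) (a b : ℤ) : ((Finset.Ico (0 : ℤ) (n + 4 : ℕ) ×ˢ
    Finset.Icc (1 : ℤ) (n + 1)).filter fun j => Rel (n + 4 : ℕ) j a b).card ≤ n + 2 := by
  have u : ∀ {i i' : ℤ}, i ∈ Finset.Ico (0 : ℤ) (n + 4 : ℕ) → i' ∈ Finset.Ico (0 : ℤ) (n + 4 : ℕ) →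
      (a - i) % (n + 4 : ℕ) = (a - i') % (n + 4 : ℕ) → i = i' := fun {i i'} p q h => by
    rw [Finset.mem_Ico] at p q
    have := Int.eq_zero_of_abs_lt_dvd (Int.ModEq.dvd h) (abs_lt.2 ⟨by omega, by omega⟩)
    omega
  refine (card_le_card_of_injOn (t := Finset.Icc (1 : ℤ) (n + 2))
    (fun j => if (a - j.1) % (n + 4 : ℕ) = 0 then j.2 else j.2 + 1) (fun j hj => ?_)
    fun j hj k hk h => ?_).trans (by simp)
  · simp only [coe_filter, Finset.mem_product, Finset.mem_Icc, Set.mem_ofPred_eq] at hj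
    simp only [coe_Icc, Set.mem_Icc]
    split_ifs <;> omega
  · simp only [coe_filter, Finset.mem_product, Finset.mem_Icc, Set.mem_ofPred_eq] at hj hk h
    have p := hj.2.spec hj.1.2.1 (by omega)
    have q := hk.2.spec hk.1.2.1 (by omega)
    have := u hj.1.1 hk.1.1
    refine Prod.ext ?_ ?_ <;> split_ifs at h <;> omega

/-- The lifted values at the two angles differ by more than `ε` modulo `2π`. -/
def En (u : ℝ → ℝ) (ε θ φ : ℝ) : Prop := ∀ k : ℤ, ε < |u φ - u θ - k * (2 * π)|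

theorem apart {w U V : ℝ} (hw : 0 < w) {n : ℤ} (hn : n * w = 2 * π)
    (h1 : (⌊V / w⌋ - ⌊U / w⌋) % n ≤ n - 2) (h2 : 2 ≤ (⌊V / w⌋ - ⌊U / w⌋) % n) (k : ℤ) :
    w < |V - U - k * (2 * π)| := by
  have e := Int.emod_add_mul_ediv (⌊V / w⌋ - ⌊U / w⌋) n
  have a1 := (fl_le hw).1 (le_refl ⌊U / w⌋)
  have a2 := (fl_lt hw).1 (lt_add_one ⌊U / w⌋)
  have b1 := (fl_le hw).1 (le_refl ⌊V / w⌋)
  have b2 := (fl_lt hw).1 (lt_add_one ⌊V / w⌋)
  push_cast at a2 b2
  rw [← hn, lt_abs]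
  rcases le_or_gt k ((⌊V / w⌋ - ⌊U / w⌋) / n) with h | h
  · have : (2 : ℝ) ≤ ⌊V / w⌋ - ⌊U / w⌋ - k * n := by
      have := mul_le_mul_of_nonneg_left h (show 0 ≤ n by omega)
      exact_mod_cast (by rw [mul_comm k]; omega : 2 ≤ ⌊V / w⌋ - ⌊U / w⌋ - k * n)
    left
    nlinarith
  · have : (⌊V / w⌋ : ℝ) - ⌊U / w⌋ - k * n ≤ -2 := by
      have := mul_le_mul_of_nonneg_left (Int.add_one_le_of_lt h) (show 0 ≤ n by omega)
      rw [mul_add] at this
      exact_mod_cast (by rw [mul_comm k]; omega : ⌊V / w⌋ - ⌊U / w⌋ - k * n ≤ -2)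
    right
    nlinarith

theorem levels {u : ℝ → ℝ} (hu : Continuous u) {d : ℤ}
    (hd : ∀ θ, u (θ + 2 * π) = u θ + 2 * π * d) {ε : ℝ} (h0 : 0 < ε) (n : ℕ)
    (hε : (n + 4 : ℕ) * ε < 2 * π) :
    ((n + 4) * (n + 1) : ℕ) * ENNReal.ofReal (2 * Real.log 2 * d) ≤ (n + 2 : ℕ) * Mu (En u ε) 0 := by
  obtain ⟨w, hw⟩ : ∃ w : ℝ, (n + 4 : ℕ) * w = 2 * π := ⟨_, mul_div_cancel₀ _ (by positivity)⟩
  have εw : ε < w := lt_of_mul_lt_mul_left (hw ▸ hε) (by positivity)
  have w0 := h0.trans εw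
  obtain ⟨δ, δ0, hδ⟩ := Metric.uniformContinuous_iff.1 (unif hu hd) ((w - ε) / 2) (by linarith)
  obtain ⟨N, hN⟩ := exists_nat_gt (2 * π / δ)
  have N0 : (0 : ℝ) < N := lt_trans (by positivity) hN
  obtain ⟨h, hh⟩ : ∃ h : ℝ, N * h = 2 * π := ⟨_, mul_div_cancel₀ _ N0.ne'⟩
  have hp : 0 < h := (mul_pos_iff_of_pos_left N0).1 (hh ▸ two_pi_pos)
  have hδ' : ∀ x y, |x - y| ≤ h → |u x - u y| < (w - ε) / 2 := fun x y e => hδ (e.trans_lt (by
    rw [div_lt_iff₀ δ0, ← hh] at hN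
    exact lt_of_mul_lt_mul_left hN N0.le))
  obtain ⟨L, hL⟩ : ∃ L : ℤ → ℤ, ∀ j, L j = ⌊u (j * h) / w⌋ := ⟨_, fun _ => rfl⟩
  have per : ∀ j i, L (j + N) - i = L j - i + (n + 4 : ℕ) * d := fun j i => by
    rw [hL, hL, Int.cast_add, add_mul, Int.cast_natCast, hh, hd, ← hw, add_div,
      mul_right_comm, mul_div_cancel_right₀ _ w0.ne', ← Int.cast_natCast, ← Int.cast_mul,
      Int.floor_add_intCast]
    ring
  have adj : ∀ j i, |L (j + 1) - i - (L j - i)| ≤ 1 := fun j i => by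
    have := abs_lt.1 (hδ' ((j + 1 : ℤ) * h) (j * h) (by
      push_cast
      rw [add_mul, add_sub_cancel_left, one_mul, abs_of_pos hp]))
    have a1 := (fl_le w0).1 (hL j).le
    have a2 := (fl_lt w0).1 ((hL j).ge.trans_lt (lt_add_one _))
    have b1 := (fl_le w0 (j := L j - 1) (x := u ((j + 1 : ℤ) * h))).2 (by
      push_cast at this ⊢; linarith)
    have b2 := (fl_lt w0 (j := L j + 2) (x := u ((j + 1 : ℤ) * h))).2 (by
      push_cast at this a2 ⊢; linarith)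
    rw [← hL] at b1 b2
    rw [abs_le]
    omega
  have near : ∀ x, |u x - u (⌊x / h⌋ * h)| < (w - ε) / 2 := fun x => hδ' _ _ (by
    have a1 := (fl_le hp).1 (le_refl ⌊x / h⌋)
    have a2 := (fl_lt hp).1 (lt_add_one ⌊x / h⌋)
    push_cast at a2
    rw [abs_le]
    constructor <;> linarith)
  refine le_trans ?_ (Mu_sum (Finset.Ico (0 : ℤ) (n + 4 : ℕ) ×ˢ Finset.Icc (1 : ℤ) (n + 1))
    (fun j x y => Rel (n + 4 : ℕ) j (L ⌊x / h⌋) (L ⌊y / h⌋)) _ _ (fun x y => Rel.card n _ _)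
    fun j hj x y r k => ?_)
  · rw [← nsmul_eq_mul, show (n + 4) * (n + 1) = (Finset.Ico (0 : ℤ) (n + 4 : ℕ) ×ˢ
      Finset.Icc (1 : ℤ) (n + 1)).card by simp; rfl]
    refine card_nsmul_le_sum _ _ _ fun j hj => ?_
    rw [Finset.mem_product, Finset.mem_Icc] at hj
    have st := fun i => step (n := (n + 4 : ℕ)) hj.2.1 (by omega) (adj i j.1)
    refine cyc hp hh (τ := fun i => (L i - j.1) % (n + 4 : ℕ) ≤ j.2)
      (s := fun i => (L i - j.1) % (n + 4 : ℕ) = 0 ∨ (L i - j.1) % (n + 4 : ℕ) = (n + 4 : ℕ) - 1)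
      (fun i => by simp only [per, Int.add_mul_emod_self_left])
      (fun i => by simp only [per, Int.add_mul_emod_self_left]) (fun i => (st i).1) fun r => ?_
    have := sum_range_sub (fun i : ℕ => (((L (r + i) - j.1) / (n + 4 : ℕ) : ℤ) : ℝ)) N
    rw [per, Int.add_mul_ediv_left _ _ (by omega)] at this
    simp only [Nat.cast_zero, add_zero, Int.cast_add, add_sub_cancel_left] at this
    rw [← this]
    refine sum_congr rfl fun i _ => ?_
    rw [Nat.cast_succ i, ← add_assoc]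
    convert (st (r + i)).2
  · rw [Finset.mem_product, Finset.mem_Icc] at hj
    obtain ⟨p, q, -⟩ := r.spec hj.2.1 (by omega)
    rw [hL, hL] at p q
    have := apart w0 (by exact_mod_cast hw) p q k
    have a := abs_lt.1 (near x)
    have b := abs_lt.1 (near y)
    rw [lt_abs] at this ⊢
    exact this.imp (fun _ => by linarith) fun _ => by linarith

theorem lower {u : ℝ → ℝ} (hu : Continuous u) {d : ℤ}
    (hd : ∀ θ, u (θ + 2 * π) = u θ + 2 * π * d) {ε : ℝ} (h0 : 0 < ε) (h1 : ε < π / 2) :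
    ENNReal.ofReal ((4 * π - 6 * ε) * Real.log 2 * d) ≤ ENNReal.ofReal ε * Mu (En u ε) 0 := by
  have lg := Real.log_nonneg one_le_two
  rcases le_total (d : ℝ) 0 with d0 | d0
  · rw [ENNReal.ofReal_of_nonpos (mul_nonpos_of_nonneg_of_nonpos
      (mul_nonneg (by linarith) lg) d0)]
    exact zero_le
  have a : 4 < ⌈2 * π / ε⌉₊ := Nat.lt_ceil.2 (by rw [lt_div_iff₀ h0]; push_cast; linarith)
  obtain ⟨n, hn⟩ := Nat.exists_eq_add_of_lt a
  have b : (n + 4 : ℕ) * ε < 2 * π := (lt_div_iff₀ h0).1 (Nat.lt_ceil.1 (by omega))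
  have c : 2 * π ≤ (n + 5) * ε := by
    have := Nat.le_ceil (2 * π / ε)
    rw [hn, div_le_iff₀ h0] at this
    push_cast at this
    linarith
  rw [← ENNReal.mul_le_mul_iff_right (a := (n + 2 : ℕ)) (by simp) (ENNReal.natCast_ne_top _),
    mul_left_comm]
  refine le_trans ?_ (mul_le_mul_right (levels hu hd h0 n b) _)
  rw [← ENNReal.ofReal_natCast, ← ENNReal.ofReal_natCast, ← ENNReal.ofReal_mul (by positivity),
    ← ENNReal.ofReal_mul (by positivity), ← ENNReal.ofReal_mul h0.le]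
  refine ENNReal.ofReal_le_ofReal ?_
  push_cast
  have n0 : (0 : ℝ) ≤ n := n.cast_nonneg
  have : (n + 2) * (4 * π - 6 * ε) ≤ ε * ((n + 4) * (n + 1)) * 2 := by
    nlinarith [mul_nonneg n0 h0.le]
  nlinarith [mul_nonneg lg d0]

end Pool.Agent.Lib.MP_09d3b1_an.Sharp
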