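import Pool.Agent.Lib.MP_09d3b1_an.Sharp.Degree

/-!
The upper bound: a smoothed staircase of degree `d`.
-/

set_option autoImplicit false

open Set Finset MeasureTheory ENNReal Real Filter Topology

namespace Pool.Agent.Lib.MP_09d3b1_an.Sharp

theorem exists_stair {η : ℝ} (h0 : 0 < η) (h1 : η < 1) : ∃ ψ : ℝ → ℝ, Continuous ψ ∧ Monotone ψ ∧
    (∀ t (k : ℤ), ψ (t + k) = ψ t + k) ∧ ψ 0 = 0 ∧ ψ η = 1 := by
  refine ⟨fun t => ⌊t⌋ + min 1 (Int.fract t / η), ?_, fun s t h => ?_, fun t k => ?_, by simp, ?_⟩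
  · have := continuous_id.add (ContinuousOn.comp_fract'' (f := fun x : ℝ => min 1 (x / η) - x)
      (by fun_prop) (by simp [(one_le_inv₀ h0).2 h1.le]))
    convert this using 2 with t
    simp only [Pi.add_apply, id, Function.comp]
    linarith [Int.floor_add_fract t]
  · rcases (Int.floor_mono h).eq_or_lt with e | e
    · have : Int.fract s ≤ Int.fract t := by
        unfold Int.fract
        rw [e]
        linarith
      simp only [e]
      gcongr
    · have : (⌊s⌋ : ℝ) + 1 ≤ ⌊t⌋ := by exact_mod_cast e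
      have := min_le_left 1 (Int.fract s / η)
      have := le_min zero_le_one (div_nonneg (Int.fract_nonneg t) h0.le)
      simp only
      linarith
  · simp only [Int.floor_add_intCast, Int.fract_add_intCast, Int.cast_add]
    ring
  · simp [Int.floor_eq_zero_iff.2 ⟨h0.le, h1⟩, Int.fract_eq_self.2 ⟨h0.le, h1⟩, h0.ne']

theorem cot_le {s : ℝ} (h0 : 0 < s) (h1 : s < 2 * π) :
    cos (s / 2) / (2 * sin (s / 2)) ≤ s⁻¹ := by
  have p := sin_pos_of_pos_of_lt_pi (half_pos h0) (by linarith)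
  rcases lt_or_ge (s / 2) (π / 2) with h | h
  · have c := cos_pos_of_mem_Ioo ⟨by linarith, h⟩
    have := le_tan (half_pos h0).le h
    rw [tan_eq_sin_div_cos, le_div_iff₀ c] at this
    rw [div_le_iff₀ (by positivity), inv_mul_eq_div, le_div_iff₀ h0]
    linarith
  · exact (div_nonpos_of_nonpos_of_nonneg (cos_nonpos_of_pi_div_two_le_of_le h (by linarith))
      (by positivity)).trans (by positivity)

open Classical in
theorem inner_le {E : ℝ → ℝ → Prop} (h2 : ∀ θ φ, E θ (φ + 2 * π) ↔ E θ φ) {θ α β : ℝ}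
    (ha : 0 < α) (hb : 0 < β)
    (h : ∀ φ ∈ Set.Ioc θ (θ + 2 * π), E θ φ → θ + α < φ ∧ φ < θ + 2 * π - β) :
    (∫⁻ φ in Set.Ioc 0 (0 + 2 * π), if E θ φ then kk θ φ else 0) ≤ ENNReal.ofReal (α⁻¹ + β⁻¹) := by
  rw [inner_shift h2 θ 0 θ]
  refine ((setLIntegral_mono' (g := (Set.Ioo (θ + α) (θ + 2 * π - β)).indicator (kk θ))
    measurableSet_Ioc fun φ hφ => ?_).trans (setLIntegral_le_lintegral _ _)).trans ?_
  · split_ifs with e
    · rw [Set.indicator_of_mem (Set.mem_Ioo.2 (h φ hφ e))]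
    · exact zero_le
  rw [lintegral_indicator measurableSet_Ioo]
  rcases le_or_gt (θ + α) (θ + 2 * π - β) with c | c
  swap
  · rw [Set.Ioo_eq_empty c.le.not_gt]
    simp
  simp only [kk, chord]
  rw [lint_ftc (F := fun φ => -(cos ((φ - θ) / 2) / (2 * sin ((φ - θ) / 2)))) c (fun t ht => ?_)
    fun t _ => by positivity]
  · refine ENNReal.ofReal_le_ofReal ?_
    rw [add_sub_cancel_left, show (θ + 2 * π - β - θ) / 2 = π - β / 2 by ring, cos_pi_sub,
      sin_pi_sub, neg_div, neg_neg, sub_neg_eq_add, add_comm]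
    exact add_le_add (cot_le ha (by linarith)) (cot_le hb (by linarith))
  · have p := (sin_pos_of_pos_of_lt_pi (x := (t - θ) / 2) (by linarith [ht.1])
      (by linarith [ht.2])).ne'
    have d := ((hasDerivAt_id' t).sub_const θ).div_const 2
    refine ((d.cos.fun_div (d.sin.const_mul 2) (mul_ne_zero two_ne_zero p)).fun_neg).congr_deriv ?_
    field_simp
    linear_combination 4 * sin_sq_add_cos_sq ((t - θ) / 2)

theorem cell {G : ℝ → ℝ≥0∞} {c h η : ℝ} (hh : 0 < h) (h0 : 0 < η) (h1 : η < 1)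
    (g1 : ∀ θ, G θ ≤ ENNReal.ofReal (h⁻¹ + h⁻¹))
    (g2 : ∀ θ ∈ Set.Ioo (c + η * h) (c + h),
      G θ ≤ ENNReal.ofReal ((c + 2 * h - θ)⁻¹ + (θ - (c - h + η * h))⁻¹)) :
    ∫⁻ θ in Set.Ioc c (c + h), G θ ≤ ENNReal.ofReal (2 * Real.log 2 + 2 * η) := by
  have a : 0 < η * h := by positivity
  have b : η * h < h := by nlinarith
  rw [← Set.Ioc_union_Ioc_eq_Ioc (b := c + η * h) (by linarith) (by linarith), add_comm (2 * _),
    ENNReal.ofReal_add (by positivity) (by positivity)]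
  refine (lintegral_union_le _ _ _).trans (add_le_add ((lintegral_mono g1).trans_eq ?_) ?_)
  · rw [setLIntegral_const, Real.volume_Ioc, ← ENNReal.ofReal_mul (by positivity)]
    congr 1
    field_simp
    ring
  rw [← setLIntegral_congr Ioo_ae_eq_Ioc]
  refine (setLIntegral_mono' measurableSet_Ioo g2).trans ?_
  rw [lint_ftc (F := fun θ => Real.log (θ - (c - h + η * h)) - Real.log (c + 2 * h - θ))
    (by linarith) (fun t ht => ?_) fun t ht => add_nonneg (inv_nonneg.2 (by linarith [ht.2]))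
      (inv_nonneg.2 (by linarith [ht.1]))]
  · refine ENNReal.ofReal_le_ofReal ?_
    have := Real.log_le_log (x := 2 - η) (y := 2) (by linarith) (by linarith)
    rw [show c + h - (c - h + η * h) = (2 - η) * h by ring, show c + 2 * h - (c + h) = h by ring,
      show c + η * h - (c - h + η * h) = h by ring,
      show c + 2 * h - (c + η * h) = (2 - η) * h by ring, Real.log_mul (by linarith) hh.ne']
    linarith
  · refine ((((hasDerivAt_id' t).sub_const _).log (by linarith [ht.1])).fun_sub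
      (((hasDerivAt_id' t).const_sub _).log (by linarith [ht.2]))).congr_deriv ?_
    ring

theorem cells {G : ℝ → ℝ≥0∞} {h : ℝ} (hh : 0 < h) {C : ℝ≥0∞}
    (g : ∀ k : ℕ, ∫⁻ θ in Set.Ioc (k * h) (k * h + h), G θ ≤ C) (N : ℕ) :
    ∫⁻ θ in Set.Ioc 0 (N * h), G θ ≤ N * C := by
  induction N with
  | zero => simp
  | succ N ih =>
    push_cast
    rw [add_mul, add_mul, one_mul, one_mul,
      ← Set.Ioc_union_Ioc_eq_Ioc (b := N * h) (by positivity) (by linarith)]
    exact (lintegral_union_le _ _ _).trans (add_le_add ih (g N))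

theorem En_right {u : ℝ → ℝ} {d : ℤ} (hd : ∀ θ, u (θ + 2 * π) = u θ + 2 * π * d) (ε θ φ : ℝ) :
    En u ε θ (φ + 2 * π) ↔ En u ε θ φ := by
  refine ⟨fun h k => ?_, fun h k => ?_⟩
  · convert h (k + d) using 2
    rw [hd]
    push_cast
    ring
  · convert h (k - d) using 2
    rw [hd]
    push_cast
    ring

theorem upper (d : ℕ) {ε : ℝ} (h0 : 0 < ε) : ∃ u : ℝ → ℝ, Continuous u ∧
    (∀ θ, u (θ + 2 * π) = u θ + 2 * π * d) ∧
      ENNReal.ofReal ε * Mu (En u ε) 0 ≤ ENNReal.ofReal ((4 * π + 3 * ε) * Real.log 2 * d) := by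
  rcases d.eq_zero_or_pos with rfl | d0
  · refine ⟨fun _ => 0, continuous_const, by simp, ?_⟩
    have : ∀ θ φ, ¬ En (fun _ => 0) ε θ φ := fun θ φ h => by
      have := h 0
      simp only [sub_self, Int.cast_zero, zero_mul, abs_zero] at this
      linarith
    simp [Mu, this]
  have lg := Real.log_pos one_lt_two
  have lg' := Real.log_two_lt_d9
  have pi := pi_pos
  obtain ⟨η, hη⟩ : ∃ η, η * (2 * (2 * π + ε)) = ε * Real.log 2 :=
    ⟨_, div_mul_cancel₀ _ (by positivity)⟩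
  have η0 : 0 < η := (mul_pos_iff_of_pos_right (by positivity)).1 (hη.symm ▸ mul_pos h0 lg)
  have η1 : η < 1 := lt_of_mul_lt_mul_right (a := 2 * (2 * π + ε)) (by nlinarith) (by positivity)
  obtain ⟨ψ, ψc, ψm, ψa, ψ0, ψ1⟩ := exists_stair η0 η1
  obtain ⟨n, n1, n2⟩ : ∃ n : ℕ, 2 * π ≤ n * ε ∧ n * ε ≤ 2 * π + ε :=
    ⟨_, (div_le_iff₀ h0).1 (Nat.le_ceil _), by
      have := Nat.ceil_lt_add_one (show 0 ≤ 2 * π / ε by positivity)
      rw [div_add_one h0.ne', lt_div_iff₀ h0] at this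
      exact this.le⟩
  have n0 : (0 : ℝ) < n := (mul_pos_iff_of_pos_right h0).1 (by linarith)
  have d0' : (0 : ℝ) < d := Nat.cast_pos.2 d0
  obtain ⟨w, hw⟩ : ∃ w : ℝ, n * w = 2 * π := ⟨_, mul_div_cancel₀ _ n0.ne'⟩
  obtain ⟨h, hh⟩ : ∃ h : ℝ, (n * d : ℕ) * h = 2 * π :=
    ⟨_, mul_div_cancel₀ _ (by push_cast; positivity)⟩
  have w0 : 0 < w := (mul_pos_iff_of_pos_left n0).1 (hw ▸ two_pi_pos)
  have hp : 0 < h := (mul_pos_iff_of_pos_left (by push_cast; positivity)).1 (hh ▸ two_pi_pos)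
  have wε : w ≤ ε := le_of_mul_le_mul_left (hw ▸ n1) n0
  have per : ∀ θ, w * ψ ((θ + 2 * π) / h) = w * ψ (θ / h) + 2 * π * (d : ℤ) := fun θ => by
    rw [show (θ + 2 * π) / h = θ / h + ((n * d : ℕ) : ℤ) by
      rw [← hh, add_div, mul_div_cancel_right₀ _ hp.ne', Int.cast_natCast], ψa, ← hw]
    push_cast
    ring
  have key : ∀ θ, ∀ φ ∈ Set.Ioc θ (θ + 2 * π), En (fun θ => w * ψ (θ / h)) ε θ φ →
      ψ (θ / h) + 1 < ψ (φ / h) ∧ ψ ((φ - 2 * π) / h) + 1 < ψ (θ / h) := fun θ φ hφ e => by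
    have a := e 0
    have b := e d
    have p := per (φ - 2 * π)
    rw [sub_add_cancel] at p
    have x := mul_le_mul_of_nonneg_left (ψm (div_le_div_of_nonneg_right hφ.1.le hp.le)) w0.le
    have y := mul_le_mul_of_nonneg_left
      (ψm (div_le_div_of_nonneg_right (sub_le_iff_le_add.2 hφ.2) hp.le)) w0.le
    simp only [Int.cast_zero, zero_mul, sub_zero] at a b
    rw [abs_of_nonneg (by linarith)] at a
    rw [abs_of_nonpos (by linarith)] at b
    exact ⟨lt_of_mul_lt_mul_left (by linarith) w0.le, lt_of_mul_lt_mul_left (by linarith) w0.le⟩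
  refine ⟨fun θ => w * ψ (θ / h), by fun_prop, per, ?_⟩
  have : Mu (En (fun θ => w * ψ (θ / h)) ε) 0 ≤
      (n * d : ℕ) * ENNReal.ofReal (2 * Real.log 2 + 2 * η) := by
    refine le_trans (le_of_eq (by rw [hh, Mu, zero_add])) (cells hp (fun k => cell hp η0 η1
      (fun θ => inner_le (En_right per ε) hp hp fun φ hφ e => ?_) fun θ hθ =>
        inner_le (En_right per ε) (by linarith [hθ.2]) (by linarith [hθ.1]) fun φ hφ e => ?_) _)
    · obtain ⟨a, b⟩ := key θ φ hφ e
      have a' := ψm.reflect_lt ((ψa _ 1).trans_lt (by simpa using a))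
      have b' := ψm.reflect_lt ((ψa _ 1).trans_lt (by simpa using b))
      rw [Int.cast_one, div_add_one hp.ne', div_lt_div_iff_of_pos_right hp] at a' b'
      exact ⟨a', by linarith⟩
    · obtain ⟨a, b⟩ := key θ φ hφ e
      have x := ψm (a := η + (k : ℤ)) (b := θ / h) (by
        rw [le_div_iff₀ hp]; push_cast; linarith [hθ.1])
      have y := ψm (a := θ / h) (b := 0 + (k + 1 : ℤ)) (by
        rw [div_le_iff₀ hp]; push_cast; linarith [hθ.2])
      rw [ψa, ψ1] at x
      rw [ψa, ψ0] at y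
      have a' := ψm.reflect_lt (a := 0 + (k + 2 : ℤ)) (b := φ / h) (by
        rw [ψa, ψ0]; push_cast at x ⊢; linarith)
      have b' := ψm.reflect_lt (a := (φ - 2 * π) / h) (b := η + (k - 1 : ℤ)) (by
        rw [ψa, ψ1]; push_cast at y ⊢; linarith)
      rw [lt_div_iff₀ hp] at a'
      rw [div_lt_iff₀ hp] at b'
      push_cast at a' b'
      constructor <;> linarith
  refine (mul_le_mul_right this _).trans ?_
  rw [← ENNReal.ofReal_natCast, ← ENNReal.ofReal_mul (by positivity), ← ENNReal.ofReal_mul h0.le]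
  refine ENNReal.ofReal_le_ofReal ?_
  push_cast
  have : n * ε * (2 * Real.log 2 + 2 * η) ≤ (4 * π + 3 * ε) * Real.log 2 :=
    (mul_le_mul_of_nonneg_right n2 (by positivity)).trans_eq (by linarith)
  nlinarith

end Pool.Agent.Lib.MP_09d3b1_an.Sharp
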