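import Pool.Agent.Lib.MP_09d3b1_an.Defs
import Pool.Agent.Lib.MP_09d3b1_an.Sharp.Defs
import Pool.Agent.Lib.MP_09d3b1_an.Sharp.Upper

/-!
The gap potential in terms of a lift; the two bounds for circle maps.
-/

set_option autoImplicit false

open Set Finset MeasureTheory ENNReal Real Filter Topology

namespace Pool.Agent.Lib.MP_09d3b1_an.Sharp

theorem coe_shift (x : ℝ) (k : ℤ) : ((x - k * (2 * π) : ℝ) : AddCircle (2 * π)) = x := by
  rw [AddCircle.coe_sub, (AddCircle.coe_eq_zero_iff (2 * π)).2 ⟨k, zsmul_eq_mul _ _⟩, sub_zero]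

theorem lt_norm {ε x : ℝ} : ε < ‖(x : AddCircle (2 * π))‖ ↔ ∀ k : ℤ, ε < |x - k * (2 * π)| :=
  ⟨fun h k => h.trans_le (by
    rw [← coe_shift x k]
    exact QuotientAddGroup.norm_mk_le_norm), fun h => by
    rw [AddCircle.norm_eq]
    exact h _⟩

theorem gap_eq {f : C(Circle, AddCircle (2 * π))} {u : ℝ → ℝ}
    (hf : ∀ θ, f (Circle.exp θ) = (u θ : AddCircle (2 * π))) {ε : ℝ} (h0 : 0 < ε) :
    gapEnergy ε f = ENNReal.ofReal ε * Mu (En u ε) 0 := by
  have hO : MeasurableSet {p : ℝ × ℝ |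
      ENNReal.ofReal ε < edist (f (Circle.exp p.2)) (f (Circle.exp p.1))} :=
    (isOpen_lt continuous_const (by fun_prop)).measurableSet
  have m : Measurable fun p : ℝ × ℝ =>
      ENNReal.ofReal (ε / ‖(Circle.exp p.2 : ℂ) - (Circle.exp p.1 : ℂ)‖ ^ 2) :=
    (measurable_const.div (Continuous.measurable (by fun_prop))).ennreal_ofReal
  rw [gapEnergy, show {p : ℝ × ℝ | p.1 ∈ Set.Ioc 0 (2 * π) ∧ p.2 ∈ Set.Ioc 0 (2 * π) ∧
      ENNReal.ofReal ε < edist (f (Circle.exp p.2)) (f (Circle.exp p.1))} =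
      {p : ℝ × ℝ | ENNReal.ofReal ε < edist (f (Circle.exp p.2)) (f (Circle.exp p.1))} ∩
        Set.Ioc 0 (2 * π) ×ˢ Set.Ioc 0 (2 * π) from
      Set.ext fun p => ⟨fun h => ⟨h.2.2, h.1, h.2.1⟩, fun h => ⟨h.2.1, h.2.2, h.1⟩⟩,
    ← Measure.restrict_restrict hO, ← lintegral_indicator hO, Measure.volume_eq_prod,
    ← Measure.prod_restrict, lintegral_prod _ (m.indicator hO).aemeasurable, Mu, zero_add,
    ← lintegral_const_mul' _ _ ENNReal.ofReal_ne_top]
  refine lintegral_congr fun θ => ?_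
  rw [← lintegral_const_mul' _ _ ENNReal.ofReal_ne_top]
  refine lintegral_congr fun φ => ?_
  have : ENNReal.ofReal ε < edist (f (Circle.exp φ)) (f (Circle.exp θ)) ↔ En u ε θ φ := by
    rw [edist_dist, ENNReal.ofReal_lt_ofReal_iff_of_nonneg h0.le, dist_eq_norm, hf, hf,
      ← AddCircle.coe_sub, lt_norm, En]
  by_cases h : En u ε θ φ
  · rw [if_pos h, Set.indicator_of_mem (by exact this.2 h), kk, ← ENNReal.ofReal_mul h0.le,
      mul_one_div]
  · rw [if_neg h, Set.indicator_of_notMem (by exact this.not.2 h), mul_zero]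

theorem En_neg (u : ℝ → ℝ) (ε : ℝ) : En (fun θ => -u θ) ε = En u ε := by
  ext θ φ
  refine ⟨fun h k => ?_, fun h k => ?_⟩ <;>
  · convert h (-k) using 1
    rw [← abs_neg]
    congr 1
    push_cast
    ring

theorem descend {u : ℝ → ℝ} (hu : Continuous u) {d : ℤ}
    (hd : ∀ θ, u (θ + 2 * π) = u θ + 2 * π * d) :
    ∃ f : C(Circle, AddCircle (2 * π)), ∀ θ, f (Circle.exp θ) = (u θ : AddCircle (2 * π)) := by
  have p : Function.Periodic (fun θ => (u θ : AddCircle (2 * π))) (2 * π) := fun θ => by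
    refine (coe_shift _ d).symm.trans ?_
    rw [hd, mul_comm (d : ℝ), add_sub_cancel_right]
  have c : Continuous (p.lift : AddCircle (2 * π) → AddCircle (2 * π)) :=
    Continuous.quotient_liftOn' ((AddCircle.continuous_mk' _).comp hu) _
  refine ⟨⟨_, c.comp AddCircle.homeomorphCircle'.symm.continuous⟩, fun θ => ?_⟩
  rw [← AddCircle.homeomorphCircle'_apply_mk]
  simp only [ContinuousMap.coe_mk, Function.comp, Homeomorph.symm_apply_apply]
  exact p.lift_coe θ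

theorem deg_unique (f : C(Circle, AddCircle (2 * π))) : ∃! d : ℤ, HasDeg f d := by
  have cov := AddCircle.isCoveringMap_coe (2 * π)
  have sh : ∀ {u v : ℝ → ℝ}, Continuous u → Continuous v →
      (∀ θ, (u θ : AddCircle (2 * π)) = v θ) → ∃ k : ℤ, ∀ θ, u θ = v θ + 2 * π * k :=
    fun {u v} hu hv h => by
      obtain ⟨k, hk⟩ := (AddCircle.coe_eq_zero_iff (2 * π) (x := u 0 - v 0)).1 (by
        rw [AddCircle.coe_sub, h, sub_self])
      rw [zsmul_eq_mul] at hk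
      have := cov.eq_of_comp_eq (g₁ := fun θ => u θ - k * (2 * π)) (by fun_prop) hv
        (funext fun θ => (coe_shift _ k).trans (h θ)) 0 (by linarith)
      exact ⟨k, fun θ => by linarith [congr_fun this θ]⟩
  obtain ⟨e, he⟩ := QuotientAddGroup.mk_surjective (f (Circle.exp 0))
  obtain ⟨u, ⟨-, hu⟩, -⟩ := cov.existsUnique_continuousMap_lifts (f.comp Circle.exp) 0 e he
  have hu' : ∀ θ, f (Circle.exp θ) = (u θ : AddCircle (2 * π)) := fun θ => (congr_fun hu θ).symm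
  obtain ⟨d, hd⟩ := sh (u := fun θ => u (θ + 2 * π)) (by fun_prop) u.continuous fun θ => by
    rw [← hu', ← hu', Circle.exp_add_two_pi]
  refine ⟨d, ⟨u, u.continuous, hu', hd⟩, fun d' ⟨v, a, b, c⟩ => ?_⟩
  obtain ⟨k, hk⟩ := sh a u.continuous fun θ => by rw [← b, hu']
  have := c 0
  rw [hk, hk, hd] at this
  exact_mod_cast mul_left_cancel₀ two_pi_pos.ne' (show 2 * π * (d' : ℝ) = 2 * π * d by linarith)

theorem gap_lower {ε : ℝ} (h0 : 0 < ε) (h1 : ε < π / 2) {d : ℤ} {f : C(Circle, AddCircle (2 * π))}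
    (h : HasDeg f d) :
    ENNReal.ofReal ((4 * π - 6 * ε) * Real.log 2 * |(d : ℝ)|) ≤ gapEnergy ε f := by
  obtain ⟨u, a, b, c⟩ := h
  rw [gap_eq b h0]
  rcases abs_choice (d : ℝ) with e | e <;> rw [e]
  · exact lower a c h0 h1
  · rw [← En_neg, ← Int.cast_neg]
    exact lower (u := fun θ => -u θ) a.neg (fun θ => by rw [c]; push_cast; ring) h0 h1

theorem gap_upper {ε : ℝ} (h0 : 0 < ε) (d : ℤ) : ∃ f : C(Circle, AddCircle (2 * π)), HasDeg f d ∧
    gapEnergy ε f ≤ ENNReal.ofReal ((4 * π + 3 * ε) * Real.log 2 * |(d : ℝ)|) := by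
  obtain ⟨u, a, b, c⟩ := upper d.natAbs h0
  rw [Nat.cast_natAbs, Int.cast_abs] at b c
  rcases abs_choice (d : ℝ) with e | e
  · rw [e] at b
    obtain ⟨f, hf⟩ := descend a b
    exact ⟨f, ⟨u, a, hf, b⟩, gap_eq hf h0 ▸ c⟩
  · have b' : ∀ θ, -u (θ + 2 * π) = -u θ + 2 * π * d := fun θ => by
      rw [b, e]
      ring
    obtain ⟨f, hf⟩ := descend (u := fun θ => -u θ) a.neg b'
    refine ⟨f, ⟨_, a.neg, hf, b'⟩, ?_⟩
    rwa [gap_eq (u := fun θ => -u θ) hf h0, En_neg]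

end Pool.Agent.Lib.MP_09d3b1_an.Sharp
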