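import Pool.Agent.Lib.MP_09d3b1_an.Sharp.Circ

/-!
The calibration inequality for unions of cells of a regular grid on the circle.
-/

set_option autoImplicit false

open Set Finset MeasureTheory ENNReal Real Filter Topology

namespace Pool.Agent.Lib.MP_09d3b1_an.Sharp

open Classical in
theorem exists_alt (τ : ℕ → Prop) (h0 : ¬ τ 0) (N : ℕ) : ∃ (M : ℕ) (p : ℕ → ℕ),
    (∀ i j, i < j → j < M → p i < p j) ∧ (∀ m < M, p m < N ∧ ¬ (τ (p m) ↔ τ (p m + 1))) ∧
    (∀ i ≤ N, ∀ m ≤ M, (∀ j < m, p j < i) → (∀ j, m ≤ j → j < M → i ≤ p j) → (τ i ↔ Odd m)) ∧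
    ∀ σ : ℕ → ℝ, ∑ i ∈ range N, ((if τ (i + 1) then 1 else 0) - if τ i then 1 else 0) * σ i =
      ∑ m ∈ range M, (-1) ^ m * σ (p m) := by
  induction N with
  | zero =>
    refine ⟨0, id, by omega, by omega, fun i hi m hm _ _ => ?_, by simp⟩
    rw [Nat.le_zero.1 hi, Nat.le_zero.1 hm]
    simp [h0]
  | succ N ih =>
    obtain ⟨M, p, a, b, c, d⟩ := ih
    have hN : τ N ↔ Odd M := c N le_rfl M le_rfl (fun j hj => (b j hj).1) (by omega)
    by_cases h : τ N ↔ τ (N + 1)
    · refine ⟨M, p, a, fun m hm => ⟨(b m hm).1.trans N.lt_succ_self, (b m hm).2⟩,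
        fun i hi m hm x y => ?_, fun σ => ?_⟩
      · rcases hi.eq_or_lt with e | e
        · rcases hm.eq_or_lt with e' | e'
          · rw [e, e', ← h, hN]
          · have := y m le_rfl e'
            have := (b m e').1
            omega
        · exact c i (by omega) m hm x y
      · rw [sum_range_succ, d, if_congr h rfl rfl, sub_self, zero_mul, add_zero]
    · have u : ∀ j < M, Function.update p M N j = p j := fun j hj => Function.update_of_ne hj.ne _ _
      have v : Function.update p M N M = N := Function.update_self _ _ _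
      refine ⟨M + 1, Function.update p M N, fun i j x y => ?_, fun m hm => ?_,
        fun i hi m hm x y => ?_, fun σ => ?_⟩
      · rw [u i (by omega)]
        rcases (Nat.le_of_lt_succ y).eq_or_lt with e | e
        · rw [e, v]
          exact (b i (by omega)).1
        · rw [u j e]
          exact a i j x e
      · rcases (Nat.le_of_lt_succ hm).eq_or_lt with e | e
        · rw [e, v]
          exact ⟨N.lt_succ_self, h⟩
        · rw [u m e]
          exact ⟨(b m e).1.trans N.lt_succ_self, (b m e).2⟩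
      · rcases hm.eq_or_lt with e | e
        · have := x M (by omega)
          rw [v] at this
          rw [e, show i = N + 1 by omega, Nat.odd_add_one]
          tauto
        · have := y M (by omega) M.lt_succ_self
          rw [v] at this
          exact c i this m (by omega) (fun j hj => u j (by omega) ▸ x j hj)
            fun j hj hM => u j hM ▸ y j hj (by omega)
      · rw [sum_range_succ, sum_range_succ, d, v, sum_congr rfl fun m hm => by
          rw [← u m (mem_range.1 hm)]]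
        congr 2
        by_cases t : τ N
        · rw [if_pos t, if_neg (by tauto), (hN.1 t).neg_one_pow, zero_sub]
        · rw [if_neg t, if_pos (by tauto), (Nat.not_odd_iff_even.1 (by tauto)).neg_one_pow, sub_zero]

theorem fl_le {h x : ℝ} (hh : 0 < h) {j : ℤ} : j ≤ ⌊x / h⌋ ↔ j * h ≤ x := by
  rw [Int.le_floor, le_div_iff₀ hh]

theorem fl_lt {h x : ℝ} (hh : 0 < h) {j : ℤ} : ⌊x / h⌋ < j ↔ x < j * h := by
  rw [Int.floor_lt, div_lt_iff₀ hh]

theorem fl_add {h : ℝ} (hh : 0 < h) {N : ℕ} (hN : N * h = 2 * π) (x : ℝ) :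
    ⌊(x + 2 * π) / h⌋ = ⌊x / h⌋ + N := by
  rw [← hN, add_div, mul_div_cancel_right₀ _ hh.ne', Int.floor_add_natCast]

theorem meas_fl (h : ℝ) (s : ℤ → Prop) : MeasurableSet {x : ℝ | s ⌊x / h⌋} :=
  (Int.measurable_floor.comp (measurable_id.div_const h)) (MeasurableSet.of_discrete (s := {j | s j}))

open Classical in
theorem cyc {h : ℝ} (hh : 0 < h) {N : ℕ} (hN : N * h = 2 * π) {τ s : ℤ → Prop}
    (hτ : ∀ j, τ (j + N) ↔ τ j) (hs : ∀ j, s (j + N) ↔ s j)
    (adj : ∀ j, ¬ (τ j ↔ τ (j + 1)) → (s j ↔ s (j + 1))) {D : ℝ}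
    (hD : ∀ r : ℤ, ∑ i ∈ range N, ((if τ (r + (i + 1 : ℕ)) then 1 else 0) -
      if τ (r + i) then 1 else 0) * (if s (r + i) then 1 else 0) = D) :
    ENNReal.ofReal (2 * Real.log 2 * D) ≤
      Mu (fun x y => ¬ (τ ⌊x / h⌋ ↔ τ ⌊y / h⌋) ∧ s ⌊x / h⌋ ∧ ¬ s ⌊y / h⌋) 0 := by
  obtain ⟨N, rfl⟩ : ∃ n, N = n + 1 := Nat.exists_eq_succ_of_ne_zero fun e => by
    rw [e] at hN
    simp [pi_ne_zero] at hN
  by_cases hr : ∃ r, τ (r - 1) ∧ ¬ τ r
  swap
  · have st : ∀ j, τ j → τ (j + 1) := fun j t => by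
      by_contra f
      exact hr ⟨j + 1, by rwa [add_sub_cancel_right], f⟩
    have st' : ∀ (k : ℕ) j, τ j → τ (j + k) := fun k j t => by
      induction k with
      | zero => simpa
      | succ k ih =>
        rw [Nat.cast_succ, ← add_assoc]
        exact st _ ih
    rw [← hD 0, sum_eq_zero fun i _ => ?_, mul_zero, ENNReal.ofReal_zero]
    · exact zero_le
    rw [if_congr (⟨fun t => (hτ _).1 (by
      have := st' N _ t
      rwa [show (0 : ℤ) + (i + 1 : ℕ) + N = 0 + i + (N + 1 : ℕ) by push_cast; ring] at this),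
      fun t => by simpa [add_assoc] using st _ t⟩ : τ (0 + (i + 1 : ℕ)) ↔ τ (0 + i)) rfl rfl, sub_self,
      zero_mul]
  obtain ⟨r, r1, r0⟩ := hr
  obtain ⟨M, p, a, b, c, d⟩ := exists_alt (fun i => τ (r + i)) (by simpa) N
  have e : r - 1 + (N + 1 : ℕ) = r + N := by push_cast; ring
  have tN : τ (r + N) := e ▸ (hτ _).2 r1
  obtain ⟨l, rfl⟩ := (c N le_rfl M le_rfl (fun j hj => (b j hj).1) (by omega)).1 tN
  have e2 : (r : ℝ) * h + 2 * π = (r + N + 1 : ℤ) * h := by
    rw [← hN]
    push_cast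
    ring
  have mono : ∀ {i j : ℤ}, i < j → (i : ℝ) * h < j * h := fun q =>
    mul_lt_mul_of_pos_right (Int.cast_lt.2 q) hh
  rw [Mu_shift (fun _ _ => by simp only [fl_add hh hN, hτ, hs])
    (fun _ _ => by simp only [fl_add hh hN, hτ, hs]) 0 (r * h), ← hD r, sum_range_succ,
    d fun i => if s (r + i) then 1 else 0, if_pos tN, if_neg (fun t => r0 ((hτ r).1 t)), zero_sub,
    neg_one_mul, ← sub_eq_add_neg]
  refine circ (r * h) l (fun m => (r + p m + 1 : ℤ) * h) (fun i j x y => mono ?_)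
    (fun m hm => ⟨mono (by omega), e2 ▸ mono ?_⟩) (meas_fl h s) (meas_fl h τ)
    (fun m => s (r + p m)) (s (r + N)) (fun m hm => ?_) ?_ ?_ fun x hx m hm P Q => ?_
  · have := a i j x (by omega)
    omega
  · have := (b m (by omega)).1
    omega
  · filter_upwards [Ioo_mem_nhds (mono (lt_add_one (r + p m))) (mono (lt_add_one (r + p m + 1)))]
      with x hx
    have u := (fl_le hh).2 hx.1.le
    have v := (fl_lt hh).2 hx.2
    have w := adj (r + p m) (by simpa [add_assoc] using (b m (by omega)).2)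
    rcases u.eq_or_lt with q | q
    · exact q ▸ Iff.rfl
    · rw [w, show r + p m + 1 = ⌊x / h⌋ by omega]
  · rw [e2]
    filter_upwards [Ioo_mem_nhdsLT (mono (lt_add_one (r + N)))] with x hx
    have u := (fl_le hh).2 hx.1.le
    have v := (fl_lt hh).2 hx.2
    rw [show r + N = ⌊x / h⌋ by omega]
  · filter_upwards [Ioo_mem_nhdsGT (mono (lt_add_one r))] with x hx
    have u := (fl_le hh).2 hx.1.le
    have v := (fl_lt hh).2 hx.2
    have w := adj (r - 1) (by rw [sub_add_cancel]; tauto)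
    rw [← e, hs, w, show r - 1 + 1 = ⌊x / h⌋ by omega]
  · have u := (fl_le hh).2 hx.1.le
    have v := (fl_lt hh).2 (e2 ▸ hx.2)
    obtain ⟨i, hi⟩ := Int.eq_ofNat_of_zero_le (sub_nonneg.2 u)
    rw [← c i (by omega) m hm (fun j hj => ?_) fun j hj hl => ?_,
      show r + i = ⌊x / h⌋ by omega]
    · rfl
    · have := (fl_le hh).2 (P j hj).le
      omega
    · have := (fl_lt hh).2 (Q j hj (by omega))
      omega

end Pool.Agent.Lib.MP_09d3b1_an.Sharp
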