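import Pool.Agent.Lib.MP_09d3b1_an.Sharp.Mass

/-!
The sharp inequality for two linked subsets of the line.
-/

set_option autoImplicit false

open Set Finset MeasureTheory ENNReal Filter Topology

namespace Pool.Agent.Lib.MP_09d3b1_an.Sharp

variable {l : ℕ} {e : Fin l → ℝ} {c : Fin (l + 1) → ℝ} {Y : ℝ → Fin (l + 1) → ℝ} {S : Set ℝ}

theorem meas_rat : Measurable (rat c e) := by
  unfold rat
  fun_prop

variable (c e S) in
/-- Pairs of points on opposite sides with prescribed levels. -/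
def Reg (σ R : ℝ) (lo hi : ℝ → ℝ) : Set (ℝ × ℝ) :=
  {p | p.1 ∈ S ∧ σ * rat c e p.1 ∈ Set.Ioo R⁻¹ R ∧ lo (σ * rat c e p.1) < -σ * rat c e p.2 ∧
    -σ * rat c e p.2 < hi (σ * rat c e p.1)}

theorem meas_Reg (hS : MeasurableSet S) (σ R : ℝ) {lo hi : ℝ → ℝ} (h1 : Measurable lo)
    (h2 : Measurable hi) : MeasurableSet (Reg e c S σ R lo hi) := by
  have := meas_rat (c := c) (e := e)
  have a : Measurable fun p : ℝ × ℝ => σ * rat c e p.1 := by fun_prop
  have b : Measurable fun p : ℝ × ℝ => -σ * rat c e p.2 := by fun_prop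
  exact (measurable_fst hS).inter ((measurableSet_Ioo.preimage a).inter
    ((measurableSet_lt (h1.comp a) b).inter (measurableSet_lt b (h2.comp a))))

theorem Lv.half (L : Lv c e Y) {σ R : ℝ} (hσ : σ = 1 ∨ σ = -1) (hS : MeasurableSet S) (hR : 0 < R)
    {lo hi : ℝ → ℝ} (h1 : Measurable lo) (h2 : Measurable hi)
    (h : ∀ t ∈ Set.Ioo R⁻¹ R, 0 < lo t ∧ lo t ≤ hi t) :
    nu (Reg e c S σ R lo hi) = ∑ k, ∫⁻ t in (fun x => σ * rat c e x) '' (Br e k ∩ S) ∩
      Set.Ioo R⁻¹ R, ENNReal.ofReal ((t + lo t)⁻¹ - (t + hi t)⁻¹) := by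
  have m : MeasurableSet (S ∩ {x | σ * rat c e x ∈ Set.Ioo R⁻¹ R}) :=
    hS.inter (measurableSet_Ioo.preimage (meas_rat.const_mul σ))
  rw [← L.push (by rcases hσ with rfl | rfl <;> simp) hS (inv_pos.2 hR),
    nu_apply (meas_Reg hS σ R h1 h2), ← lintegral_indicator m]
  refine lintegral_congr fun x => ?_
  by_cases hx : x ∈ S ∩ {x | σ * rat c e x ∈ Set.Ioo R⁻¹ R}
  · obtain ⟨p, q⟩ := h _ hx.2
    have t0 := (inv_pos.2 hR).trans hx.2.1
    have h0 : rat c e x ≠ 0 := fun d => by simp [d] at t0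
    rw [indicator_of_mem hx]
    rcases hσ with rfl | rfl
    · rw [show Prod.mk x ⁻¹' Reg e c S 1 R lo hi = {z | -hi (1 * rat c e x) < rat c e z ∧
        rat c e z < -lo (1 * rat c e x)} from Set.ext fun z =>
          ⟨fun d => ⟨by linarith [d.2.2.2], by linarith [d.2.2.1]⟩,
            fun d => ⟨hx.1, hx.2, by linarith [d.2], by linarith [d.1]⟩⟩,
        L.mass h0 (by linarith) (.inr (by linarith)) (.inr (by linarith))]
      simp
    · rw [show Prod.mk x ⁻¹' Reg e c S (-1) R lo hi = {z | lo (-1 * rat c e x) < rat c e z ∧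
        rat c e z < hi (-1 * rat c e x)} from Set.ext fun z =>
          ⟨fun d => ⟨by linarith [d.2.2.1], by linarith [d.2.2.2]⟩,
            fun d => ⟨hx.1, hx.2, by linarith [d.1], by linarith [d.2]⟩⟩,
        L.mass h0 q (.inl p) (.inl (by linarith))]
      congr 2
      rw [← neg_sub (hi _), ← neg_sub (lo _), inv_neg, inv_neg]
      ring_nf
  · rw [indicator_of_notMem hx, show Prod.mk x ⁻¹' Reg e c S σ R lo hi = ∅ from
      Set.eq_empty_of_forall_notMem fun z d => hx ⟨d.1, d.2.1⟩]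
    simp

open Classical in
theorem sum_lg (b : Fin (l + 1) → Prop) : ∑ k, (if b k then lg else 0) =
    ENNReal.ofReal (Real.log 2 * ∑ k, if b k then 1 else 0) := by
  have := Real.log_nonneg one_le_two
  rw [mul_sum, ENNReal.ofReal_sum_of_nonneg fun k _ => by positivity]
  exact sum_congr rfl fun k _ => by split_ifs <;> simp [lg]

open Classical in
theorem Lv.core (L : Lv c e Y) (hS : MeasurableSet S) {b0 bR bL : Fin (l + 1) → Prop} {δ : ℝ}
    (hδ : 0 < δ) (H0 : ∀ k, b0 k → ∀ x ∈ Br e k, |rat c e x| < δ → x ∈ S)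
    (HR : ∀ k, ¬ bR k → ∀ x ∈ Br e k ∩ S, rat c e x < δ⁻¹)
    (HL : ∀ k, ¬ bL k → ∀ x ∈ Br e k ∩ S, -rat c e x < δ⁻¹) :
    (∑ k, if b0 k then lg else 0) + (∑ k, if b0 k then lg else 0) ≤
      nu {p | rat c e p.1 * rat c e p.2 < 0 ∧ p.1 ∈ S ∧ p.2 ∉ S} +
        ((∑ k, if bR k then lg else 0) + ∑ k, if bL k then lg else 0) := by
  have lim : Tendsto (fun R : ℝ => ((l + 1 : ℕ) * 4 : ℝ≥0∞) * ENNReal.ofReal (R⁻¹ * δ⁻¹)) atTop
      (𝓝 0) := by
    have := ENNReal.Tendsto.const_mul (a := ((l + 1 : ℕ) * 4 : ℝ≥0∞)) (ENNReal.tendsto_ofReal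
      (tendsto_inv_atTop_zero.mul_const δ⁻¹)) (.inr (ENNReal.mul_ne_top (by simp) (by simp)))
    simpa using this
  refine ge_of_tendsto (by simpa using lim.const_add _) ?_
  filter_upwards [eventually_ge_atTop δ, eventually_ge_atTop δ⁻¹] with R h1 h2
  have hR := hδ.trans_le h1
  have hi := inv_pos.2 hR
  have one : ∀ σ, σ = 1 ∨ σ = -1 → ∀ b1 : Fin (l + 1) → Prop,
      (∀ k, ¬ b1 k → ∀ x ∈ Br e k ∩ S, σ * rat c e x < δ⁻¹) →
      nu (Reg e c S σ R (fun _ => R⁻¹) id) ≠ ⊤ ∧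
      nu (Reg e c S σ R (fun _ => R⁻¹) id) + (∑ k, if b0 k then lg else 0) ≤
        nu (Reg e c S σ R id fun _ => R) + (∑ k, if b1 k then lg else 0) +
          (l + 1 : ℕ) * (2 * ENNReal.ofReal (R⁻¹ * δ⁻¹)) := fun σ hσ b1 H => by
    rw [L.half hσ hS hR measurable_const measurable_id fun t ht => ⟨hi, ht.1.le⟩,
      L.half hσ hS hR measurable_id measurable_const fun t ht => ⟨hi.trans ht.1, ht.2.le⟩]
    simp only [id, ← two_mul]
    refine ⟨ENNReal.sum_ne_top.2 fun k _ => fin_two _ hR, ?_⟩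
    rw [← sum_add_distrib, ← sum_add_distrib, ← nsmul_eq_mul, ← Fin.sum_const, ← sum_add_distrib]
    refine sum_le_sum fun k _ => one_dim _ hδ h1 h2 (fun b t ht => ⟨Y (σ * t) k,
      ⟨L.mem _ k, H0 k b _ (L.mem _ k) ?_⟩, ?_⟩) fun b t ⟨x, p, q⟩ => q ▸ H k b x p
    · rcases hσ with rfl | rfl <;> simpa [L.apply, abs_of_pos ht.1] using ht.2
    · rcases hσ with rfl | rfl <;> simp [L.apply]
  obtain ⟨f1, g1⟩ := one 1 (.inl rfl) bR (by simpa using HR)
  obtain ⟨f2, g2⟩ := one (-1) (.inr rfl) bL (by simpa using HL)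
  have m := fun σ => meas_Reg (c := c) (e := e) hS σ R (lo := fun _ => R⁻¹) (hi := id)
    measurable_const measurable_id
  have key : nu (Reg e c S 1 R id fun _ => R) + nu (Reg e c S (-1) R id fun _ => R) ≤
      nu {p | rat c e p.1 * rat c e p.2 < 0 ∧ p.1 ∈ S ∧ p.2 ∉ S} +
        (nu (Reg e c S 1 R (fun _ => R⁻¹) id) + nu (Reg e c S (-1) R (fun _ => R⁻¹) id)) := by
    rw [← measure_union (Set.disjoint_left.2 fun p u v => by linarith [u.2.1.1, v.2.1.1])
      (meas_Reg hS _ R measurable_id measurable_const), ← nu_swap (m 1), ← nu_swap (m (-1))]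
    refine (measure_mono fun p hp => ?_).trans ((measure_union_le _ _).trans
      (add_le_add_right (measure_union_le _ _) _))
    by_cases s : p.2 ∈ S
    · rcases hp with ⟨-, ⟨u, -⟩, v, w⟩ | ⟨-, ⟨u, -⟩, v, w⟩ <;> simp only [id] at v
      · exact .inr (.inr ⟨s, ⟨u.trans v, w⟩, by simpa using u, by simpa using v⟩)
      · exact .inr (.inl ⟨s, ⟨by simpa using u.trans v, by simpa using w⟩, u, by simpa using v⟩)
    · rcases hp with ⟨r, ⟨u, -⟩, v, -⟩ | ⟨r, ⟨u, -⟩, v, -⟩ <;> simp only [id] at v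
      · exact .inl ⟨mul_neg_of_pos_of_neg (by linarith) (by linarith), r, s⟩
      · exact .inl ⟨mul_neg_of_neg_of_pos (by linarith) (by linarith), r, s⟩
  refine (ENNReal.add_le_add_iff_left (ENNReal.add_ne_top.2 ⟨f1, f2⟩)).1 ?_
  calc _ = _ := add_add_add_comm _ _ _ _
    _ ≤ _ := add_le_add g1 g2
    _ = nu (Reg e c S 1 R id fun _ => R) + nu (Reg e c S (-1) R id fun _ => R) +
        (((∑ k, if bR k then lg else 0) + ∑ k, if bL k then lg else 0) +
          (l + 1 : ℕ) * 4 * ENNReal.ofReal (R⁻¹ * δ⁻¹)) := by ring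
    _ ≤ _ := add_le_add_left key _
    _ = _ := by
      push_cast
      ring

theorem alt_sum (a : ℕ → ℝ) (l : ℕ) : ∑ m ∈ range (2 * l + 1), (-1) ^ m * a m =
    ∑ k ∈ range (l + 1), a (2 * k) - ∑ j ∈ range l, a (2 * j + 1) := by
  induction l with
  | zero => simp
  | succ l ih =>
    rw [show 2 * (l + 1) + 1 = 2 * l + 1 + 1 + 1 from rfl, sum_range_succ, sum_range_succ, ih,
      sum_range_succ _ (l + 1), sum_range_succ (fun j => a (2 * j + 1)), pow_succ, pow_succ, pow_mul,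
      show 2 * (l + 1) = 2 * l + 1 + 1 from rfl]
    simp [pow_succ, pow_mul]
    ring

open Classical in
theorem line (l : ℕ) (p : ℕ → ℝ) (hp : ∀ i j, i < j → j ≤ 2 * l → p i < p j) {S T : Set ℝ}
    (hS : MeasurableSet S) (σ : ℕ → Prop) (σ' : Prop)
    (h1 : ∀ m ≤ 2 * l, ∀ᶠ x in 𝓝 (p m), (x ∈ S ↔ σ m)) (h2 : ∀ᶠ x in atTop, (x ∈ S ↔ σ'))
    (h3 : ∀ᶠ x in atBot, (x ∈ S ↔ σ'))
    (hT : ∀ x m, m ≤ 2 * l + 1 → (∀ i < m, p i < x) → (∀ i, m ≤ i → i ≤ 2 * l → x < p i) →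
      (x ∈ T ↔ Odd m)) :
    ENNReal.ofReal (2 * Real.log 2 * (∑ m ∈ range (2 * l + 1), (-1) ^ m * (if σ m then 1 else 0) -
      if σ' then 1 else 0)) ≤ nu {q | ¬ (q.1 ∈ T ↔ q.2 ∈ T) ∧ q.1 ∈ S ∧ q.2 ∉ S} := by
  let c : Fin (l + 1) → ℝ := fun k => p (2 * k)
  let e : Fin l → ℝ := fun j => p (2 * j + 1)
  have hc : ∀ k, c k ∈ Br e k := fun k j =>
    ⟨fun a => hp _ _ (by have : (j : ℕ) < k := a; omega) (by omega),
      fun a => hp _ _ (by have : (k : ℕ) ≤ j := a; omega) (by omega)⟩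
  obtain ⟨Y, L⟩ := exists_Lv hc
  have c0 : ∀ k, rat c e (c k) = 0 := fun k => by
    obtain ⟨w, -, q⟩ := rat_eq hc (hc k)
    rw [q, sub_self, zero_mul]
  have mono : ∀ {k x z}, x ∈ Br e k → z ∈ Br e k → (rat c e x < rat c e z ↔ x < z) :=
    fun a b => by rw [L.lt_iff b, L.left a]
  have small : ∀ r : ℝ, ∀ᶠ δ in 𝓝[>] (0 : ℝ), r < δ⁻¹ := fun r =>
    tendsto_inv_nhdsGT_zero.eventually_gt_atTop r
  have H0 : ∀ k : Fin (l + 1), ∀ᶠ δ in 𝓝[>] (0 : ℝ), σ (2 * k) → ∀ x ∈ Br e k,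
      |rat c e x| < δ → x ∈ S := fun k => by
    obtain ⟨u, v, a, b⟩ := mem_nhds_iff_exists_Ioo_subset.1
      (inter_mem (h1 (2 * k) (by omega)) (isOpen_Br.mem_nhds (hc k)))
    obtain ⟨u', a1, a2⟩ := exists_between a.1
    obtain ⟨v', b1, b2⟩ := exists_between a.2
    have hu := (b ⟨a1, a2.trans a.2⟩).2
    have hv := (b ⟨a.1.trans b1, b2⟩).2
    have p1 := (mono hu (hc k)).2 a2
    have p2 := (mono (hc k) hv).2 b1
    rw [c0] at p1 p2
    filter_upwards [nhdsWithin_le_nhds (gt_mem_nhds (neg_pos.2 p1)),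
      nhdsWithin_le_nhds (gt_mem_nhds p2)] with δ d1 d2 s x hx h
    rw [abs_lt] at h
    exact (b ⟨a1.trans ((mono hu hx).1 (by linarith [h.1])),
      ((mono hx hv).1 (h.2.trans d2)).trans b2⟩).1.2 s
  have HR : ∀ k : Fin (l + 1), ∀ᶠ δ in 𝓝[>] (0 : ℝ), ¬ (if (k : ℕ) < l then σ (2 * k + 1) else σ') →
      ∀ x ∈ Br e k ∩ S, rat c e x < δ⁻¹ := fun k => by
    obtain ⟨z, a, b⟩ : ∃ z ∈ Br e k, ∀ x ∈ Br e k, z < x →
        (x ∈ S ↔ if (k : ℕ) < l then σ (2 * k + 1) else σ') := by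
      rcases k.eq_castSucc_or_eq_last with ⟨j, rfl⟩ | rfl
      · obtain ⟨u, v, a, b⟩ := mem_nhds_iff_exists_Ioo_subset.1 (h1 (2 * j + 1) (by omega))
        obtain ⟨z, a1, a2⟩ := exists_between (max_lt a.1 ((hc j.castSucc j).2 le_rfl))
        rw [max_lt_iff] at a1
        refine ⟨z, fun i => ⟨fun d => ((hc _ i).1 d).trans a1.2, fun d => a2.trans_le (e_mono hc d)⟩,
          fun x hx h => ?_⟩
        simpa using b ⟨a1.1.trans h, ((hx j).2 le_rfl).trans a.2⟩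
      · obtain ⟨M, b⟩ := eventually_atTop.1 h2
        exact ⟨max M (c (Fin.last l)), fun i => ⟨fun d => ((hc _ i).1 d).trans_le (le_max_right _ _),
          fun d => absurd d (Fin.castSucc_lt_last i).not_ge⟩, fun x _ h => by
            simpa using b x ((le_max_left _ _).trans h.le)⟩
    filter_upwards [small (rat c e z)] with δ d s x hx
    exact lt_of_le_of_lt (not_lt.1 fun h => s ((b x hx.1 ((mono a hx.1).1 h)).1 hx.2)) d
  have HL : ∀ k : Fin (l + 1), ∀ᶠ δ in 𝓝[>] (0 : ℝ), ¬ (if (k : ℕ) = 0 then σ' else σ (2 * k - 1)) →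
      ∀ x ∈ Br e k ∩ S, -rat c e x < δ⁻¹ := fun k => by
    obtain ⟨z, a, b⟩ : ∃ z ∈ Br e k, ∀ x ∈ Br e k, x < z →
        (x ∈ S ↔ if (k : ℕ) = 0 then σ' else σ (2 * k - 1)) := by
      rcases k.eq_zero_or_eq_succ with rfl | ⟨j, rfl⟩
      · obtain ⟨M, b⟩ := eventually_atBot.1 h3
        exact ⟨min M (c 0), fun i => ⟨fun d => absurd d (Fin.not_lt_zero _),
          fun d => (min_le_right _ _).trans_lt ((hc _ i).2 d)⟩, fun x _ h => by
            simpa using b x (h.le.trans (min_le_left _ _))⟩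
      · obtain ⟨u, v, a, b⟩ := mem_nhds_iff_exists_Ioo_subset.1 (h1 (2 * j + 1) (by omega))
        obtain ⟨z, a1, a2⟩ := exists_between (lt_min a.2 ((hc j.succ j).1 j.castSucc_lt_succ))
        rw [lt_min_iff] at a2
        refine ⟨z, fun i => ⟨fun d => (e_mono hc (Fin.castSucc_lt_succ_iff.1 d)).trans_lt a1,
          fun d => a2.2.trans ((hc _ i).2 d)⟩, fun x hx h => ?_⟩
        simpa [mul_add] using b ⟨a.1.trans ((hx j).1 j.castSucc_lt_succ), h.trans a2.1⟩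
    filter_upwards [small (-rat c e z)] with δ d s x hx
    exact lt_of_le_of_lt (neg_le_neg (not_lt.1 fun h =>
      s ((b x hx.1 ((mono hx.1 a).1 h)).1 hx.2))) d
  obtain ⟨δ, ⟨⟨d0, dR⟩, dL⟩, hδ⟩ := ((((eventually_all.2 H0).and (eventually_all.2 HR)).and
    (eventually_all.2 HL)).and self_mem_nhdsWithin).exists
  have key := L.core hS hδ d0 dR dL
  have sg : ∀ x, rat c e x ≠ 0 → (x ∈ T ↔ 0 < rat c e x) := fun x h => by
    obtain ⟨k, hk⟩ := exists_Br (x := x) hc fun j d =>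
      prod_ne_zero_iff.1 (div_ne_zero_iff.1 h).2 j (mem_univ j) (sub_eq_zero.2 d)
    have lo : ∀ i < 2 * (k : ℕ), p i < x := fun i hi => by
      have := (hk ⟨k - 1, by omega⟩).1 (show (k : ℕ) - 1 < k by omega)
      rcases (show i = 2 * (k - 1) + 1 ∨ i < 2 * (k - 1) + 1 by omega) with rfl | d
      exacts [this, (hp _ _ d (by omega)).trans this]
    have hi : ∀ i, 2 * (k : ℕ) + 1 ≤ i → i ≤ 2 * l → x < p i := fun i a b => by
      have := (hk ⟨k, by omega⟩).2 le_rfl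
      rcases a.eq_or_lt with rfl | d
      exacts [this, this.trans (hp _ _ d b)]
    rcases h.lt_or_gt with d | d
    · have := (mono hk (hc k)).1 (by rwa [c0])
      rw [hT x (2 * k) (by omega) lo fun i a b => by
        rcases a.eq_or_lt with rfl | a
        exacts [this, hi i a b]]
      simp [d.not_gt]
    · have := (mono (hc k) hk).1 (by rwa [c0])
      rw [hT x (2 * k + 1) (by omega) (fun i a => by
        rcases (Nat.lt_succ_iff.1 a).eq_or_lt with rfl | a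
        exacts [this, lo i a]) hi]
      simp [d]
  refine le_trans ?_ (measure_mono (s := {p | rat c e p.1 * rat c e p.2 < 0 ∧ p.1 ∈ S ∧ p.2 ∉ S})
    fun q hq => ⟨?_, hq.2⟩)
  · have l2 := Real.log_nonneg one_le_two
    have n : ∀ b : Fin (l + 1) → Prop, 0 ≤ Real.log 2 * ∑ k, if b k then 1 else 0 := fun b =>
      mul_nonneg l2 (sum_nonneg fun k _ => by positivity)
    rw [sum_lg, sum_lg, sum_lg, ← ENNReal.ofReal_add (n _) (n _), ← ENNReal.ofReal_add (n _) (n _),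
      ← tsub_le_iff_right, ← ENNReal.ofReal_sub _ (add_nonneg (n _) (n _))] at key
    refine le_of_eq_of_le (congrArg _ ?_) key
    rw [alt_sum, sum_range (n := l + 1), sum_range (n := l)]
    generalize (∑ i : Fin (l + 1), if σ (2 * i) then (1 : ℝ) else 0) = A
    rw [Fin.sum_univ_castSucc, Fin.sum_univ_succ]
    by_cases hσ : σ' <;> simp [mul_add, hσ] <;> ring
  · rw [sg _ (left_ne_zero_of_mul hq.1.ne), sg _ (right_ne_zero_of_mul hq.1.ne)]
    rcases mul_neg_iff.1 hq.1 with d | d <;> simp [d.1, d.2, d.1.not_gt, d.2.not_gt]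

end Pool.Agent.Lib.MP_09d3b1_an.Sharp
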