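import Pool.Agent.Lib.MP_09d3b1_an.Sharp.Root

/-!
The kernel pushes forward under the rational function; the calibration inequality on the line.
-/

set_option autoImplicit false

open Set Finset MeasureTheory ENNReal

namespace Pool.Agent.Lib.MP_09d3b1_an.Sharp

variable {l : ℕ} {e : Fin l → ℝ} {c : Fin (l + 1) → ℝ} {k : Fin (l + 1)} {x a b : ℝ}
  {Y : ℝ → Fin (l + 1) → ℝ}

theorem lint_ftc {F f : ℝ → ℝ} (hab : a ≤ b) (hF : ∀ t ∈ Set.Icc a b, HasDerivAt F (f t) t)
    (hf : ∀ t ∈ Set.Icc a b, 0 ≤ f t) :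
    ∫⁻ t in Set.Ioo a b, ENNReal.ofReal (f t) = ENNReal.ofReal (F b - F a) := by
  have c : ContinuousOn F (Set.Icc a b) := fun t ht => (hF t ht).continuousAt.continuousWithinAt
  have i := intervalIntegral.integrableOn_deriv_of_nonneg c
    (fun t ht => hF t (Ioo_subset_Icc_self ht)) fun t ht => hf t (Ioo_subset_Icc_self ht)
  rw [← intervalIntegral.integral_eq_sub_of_hasDerivAt_of_le hab c
    (fun t ht => hF t (Ioo_subset_Icc_self ht))
    ((intervalIntegrable_iff_integrableOn_Ioc_of_le hab).2 i), intervalIntegral.integral_of_le hab,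
    integral_Ioc_eq_integral_Ioo, ofReal_integral_eq_lintegral_ofReal
      (i.mono_set Ioo_subset_Ioc_self) ((ae_restrict_iff' measurableSet_Ioo).2
        (.of_forall fun t ht => hf t (Ioo_subset_Icc_self ht)))]

/-- The kernel on the line. -/
noncomputable def K (x z : ℝ) : ℝ≥0∞ := ENNReal.ofReal ((x - z)⁻¹ ^ 2)

theorem inv_le (hab : a ≤ b) (hx : x < a ∨ b < x) : 0 ≤ (x - b)⁻¹ - (x - a)⁻¹ := by
  rcases hx with h | h
  · exact sub_nonneg.2 ((inv_le_inv_of_neg (by linarith) (by linarith)).2 (by linarith))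
  · exact sub_nonneg.2 (inv_anti₀ (by linarith) (by linarith))

theorem lint_K (hab : a ≤ b) (hx : x < a ∨ b < x) :
    ∫⁻ z in Set.Ioo a b, K x z = ENNReal.ofReal ((x - b)⁻¹ - (x - a)⁻¹) :=
  lint_ftc (F := fun z => (x - z)⁻¹) hab (fun t ht => by
    have : x - t ≠ 0 := by rcases hx with h | h <;> intro d <;> linarith [ht.1, ht.2]
    refine (((hasDerivAt_id' t).const_sub x).fun_inv this).congr_deriv ?_
    field_simp) fun _ _ => sq_nonneg _

section Lv

variable (L : Lv c e Y)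
include L

theorem Lv.sum (hx : ∀ j, x - e j ≠ 0) (hab : a ≤ b) (ht : rat c e x < a ∨ b < rat c e x) :
    (∀ k, x < Y a k ∨ Y b k < x) ∧ ∑ k, ((x - Y b k)⁻¹ - (x - Y a k)⁻¹) =
      _root_.deriv (rat c e) x * ((rat c e x - b)⁻¹ - (rat c e x - a)⁻¹) := by
  have ha : rat c e x ≠ a := by rcases ht with h | h <;> intro d <;> linarith
  have hb : rat c e x ≠ b := by rcases ht with h | h <;> intro d <;> linarith
  refine ⟨fun k => by_contra fun h => ?_, ?_⟩
  · rw [not_or, not_lt, not_lt] at h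
    have := Br_mid (L.mem a k) (L.mem b k) h.1 h.2
    rcases ht with i | i
    exacts [((L.gt_iff this).1 i).not_ge h.1, ((L.lt_iff this).1 i).not_ge h.2]
  · rw [mul_sub, sum_sub_distrib]
    conv_rhs => rw [(L.deriv hx hb).deriv, ← (L.deriv hx hb).deriv]
    nth_rewrite 1 [(L.deriv hx hb).deriv]
    rw [(L.deriv hx ha).deriv]
    have := sub_ne_zero.2 ha
    have := sub_ne_zero.2 hb
    field_simp
    ring

theorem Lv.deriv_nonneg (hx : ∀ j, x - e j ≠ 0) : 0 ≤ _root_.deriv (rat c e) x := by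
  obtain ⟨p, q⟩ := L.sum (a := rat c e x + 1) (b := rat c e x + 2) hx (by linarith)
    (.inl (by linarith))
  have := q ▸ sum_nonneg fun k (_ : k ∈ Finset.univ) => inv_le (L.mono (by linarith) k) (p k)
  norm_num at this
  linarith

theorem Lv.mass (h0 : rat c e x ≠ 0) (hab : a ≤ b) (hs : 0 < a ∨ b < 0)
    (ht : rat c e x < a ∨ b < rat c e x) : ∫⁻ z in {z | a < rat c e z ∧ rat c e z < b}, K x z =
      ENNReal.ofReal (_root_.deriv (rat c e) x) *
        ENNReal.ofReal ((rat c e x - b)⁻¹ - (rat c e x - a)⁻¹) := by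
  have hx : ∀ j, x - e j ≠ 0 := fun j => prod_ne_zero_iff.1 (div_ne_zero_iff.1 h0).2 j (mem_univ j)
  obtain ⟨p, q⟩ := L.sum hx hab ht
  rw [L.level hs, lintegral_iUnion (fun _ => measurableSet_Ioo) fun i j h =>
    Set.disjoint_left.2 fun z u v => h (Br_eq (Br_mid (L.mem a i) (L.mem b i) u.1.le u.2.le)
      (Br_mid (L.mem a j) (L.mem b j) v.1.le v.2.le)), tsum_fintype,
    ← ENNReal.ofReal_mul (L.deriv_nonneg hx), ← q,
    ENNReal.ofReal_sum_of_nonneg fun k _ => inv_le (L.mono hab k) (p k)]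
  exact sum_congr rfl fun k _ => lint_K (L.mono hab k) (p k)

theorem Lv.push {σ : ℝ} (hσ : |σ| = 1) {S : Set ℝ} (hS : MeasurableSet S) (ha : 0 < a)
    (G : ℝ → ℝ≥0∞) : ∫⁻ x in S ∩ {x | σ * rat c e x ∈ Set.Ioo a b},
      ENNReal.ofReal (_root_.deriv (rat c e) x) * G (σ * rat c e x) =
      ∑ k, ∫⁻ t in (fun x => σ * rat c e x) '' (Br e k ∩ S) ∩ Set.Ioo a b, G t := by
  have m : MeasurableSet ((fun x => σ * rat c e x) ⁻¹' Set.Ioo a b) :=
    measurableSet_Ioo.preimage (by unfold rat; fun_prop)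
  have h0 : σ ≠ 0 := fun d => by simp [d] at hσ
  have : S ∩ {x | σ * rat c e x ∈ Set.Ioo a b} =
      ⋃ k, Br e k ∩ S ∩ (fun x => σ * rat c e x) ⁻¹' Set.Ioo a b := by
    ext z
    simp only [mem_iUnion]
    refine ⟨fun h => ?_, fun ⟨k, h⟩ => ⟨h.1.2, h.2⟩⟩
    obtain ⟨k, hk⟩ := exists_Br (x := z) L.hc fun j d => by
      have := h.2.1
      rw [rat, prod_eq_zero (f := fun j => z - e j) (mem_univ j) (sub_eq_zero.2 d),
        _root_.div_zero] at this
      linarith
    exact ⟨k, ⟨hk, h.1⟩, h.2⟩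
  rw [this, lintegral_iUnion (fun _ => (isOpen_Br.measurableSet.inter hS).inter m) fun i j h =>
    Set.disjoint_left.2 fun z u v => h (Br_eq u.1.1 v.1.1), tsum_fintype]
  refine sum_congr rfl fun k _ => ?_
  rw [← image_inter_preimage, lintegral_image_eq_lintegral_abs_deriv_mul
    ((isOpen_Br.measurableSet.inter hS).inter m) (f' := fun x => σ * _root_.deriv (rat c e) x)
    (fun x hx => ((L.deriv (a := rat c e x + 1) (Br_ne hx.1.1)
      (by linarith)).differentiableAt.hasDerivAt.const_mul σ).hasDerivWithinAt) fun u hu v hv h => by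
      rw [← L.left hu.1.1, mul_left_cancel₀ h0 h, L.left hv.1.1]]
  refine setLIntegral_congr_fun ((isOpen_Br.measurableSet.inter hS).inter m) fun x hx => ?_
  simp only [abs_mul, hσ, one_mul, abs_of_nonneg (L.deriv_nonneg (Br_ne hx.1.1))]

end Lv

/-- The logarithm of two. -/
noncomputable def lg : ℝ≥0∞ := ENNReal.ofReal (Real.log 2)

open Classical in
theorem one_dim (W : Set ℝ) {δ R : ℝ} (hδ : 0 < δ) (h1 : δ ≤ R) (h2 : δ⁻¹ ≤ R) {b0 b1 : Prop}
    (p0 : b0 → Set.Ioo 0 δ ⊆ W) (p1 : ¬ b1 → ∀ t ∈ W, t < δ⁻¹) :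
    (∫⁻ t in W ∩ Set.Ioo R⁻¹ R, ENNReal.ofReal ((t + R⁻¹)⁻¹ - (2 * t)⁻¹)) + (if b0 then lg else 0) ≤
      (∫⁻ t in W ∩ Set.Ioo R⁻¹ R, ENNReal.ofReal ((2 * t)⁻¹ - (t + R)⁻¹)) + (if b1 then lg else 0) +
        2 * ENNReal.ofReal (R⁻¹ * δ⁻¹) := by
  have hR : 0 < R := hδ.trans_le h1
  have hi : 0 < R⁻¹ := inv_pos.2 hR
  have h3 : R⁻¹ ≤ δ := inv_le_of_inv_le₀ hδ h2
  have lo : Real.log (1 + R⁻¹ * δ⁻¹) ≤ R⁻¹ * δ⁻¹ := by
    linarith [Real.log_le_sub_one_of_pos (show 0 < 1 + R⁻¹ * δ⁻¹ by positivity)]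
  have e1 : (∫⁻ t in W ∩ Set.Ioo R⁻¹ R, ENNReal.ofReal ((t + R⁻¹)⁻¹ - (2 * t)⁻¹)) +
      (∫⁻ t in W ∩ Set.Ioo R⁻¹ R, ENNReal.ofReal (t⁻¹ - (t + R⁻¹)⁻¹)) =
      (∫⁻ t in W ∩ Set.Ioo R⁻¹ R, ENNReal.ofReal ((2 * t)⁻¹ - (t + R)⁻¹)) +
        ∫⁻ t in W ∩ Set.Ioo R⁻¹ R, ENNReal.ofReal (t + R)⁻¹ := by
    rw [← lintegral_add_left (by fun_prop), ← lintegral_add_left (by fun_prop)]
    refine lintegral_congr_ae (ae_restrict_of_ae_restrict_of_subset inter_subset_right
      ((ae_restrict_iff' measurableSet_Ioo).2 (.of_forall fun t ht => ?_)))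
    have : 0 < t := hi.trans ht.1
    dsimp only
    rw [← ENNReal.ofReal_add (sub_nonneg.2 (inv_anti₀ (by positivity) (by linarith [ht.1])))
      (sub_nonneg.2 (inv_anti₀ this (by linarith))), ← ENNReal.ofReal_add
      (sub_nonneg.2 (inv_anti₀ (by positivity) (by linarith [ht.2]))) (by positivity)]
    congr 1
    field_simp
    ring
  have e2 : ∀ r, 0 ≤ r → ∫⁻ t in Set.Ioo 0 r, ENNReal.ofReal (t + R)⁻¹ =
      ENNReal.ofReal (Real.log (1 + R⁻¹ * r)) := fun r hr => by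
    rw [lint_ftc (F := fun t => Real.log (t + R)) hr (fun t ht => by
      simpa using ((hasDerivAt_id' t).add_const R).log (by linarith [ht.1])) fun t ht => by
        have := ht.1
        positivity, ← Real.log_div (by positivity) (by positivity)]
    congr 2
    field_simp
    ring
  have e3 : (if b0 then lg else 0) ≤ (∫⁻ t in W ∩ Set.Ioo R⁻¹ R,
      ENNReal.ofReal (t⁻¹ - (t + R⁻¹)⁻¹)) + ENNReal.ofReal (R⁻¹ * δ⁻¹) := by
    split_ifs with h
    · refine le_trans ?_ (add_le_add_left (lintegral_mono_set (s := Set.Ioo R⁻¹ δ)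
        (t := W ∩ Set.Ioo R⁻¹ R) fun t ht =>
        ⟨p0 h ⟨hi.trans ht.1, ht.2⟩, ht.1, ht.2.trans_le h1⟩) _)
      rw [lint_ftc (F := fun t => Real.log t - Real.log (t + R⁻¹)) h3 (fun t ht => by
        have := hi.trans_le ht.1
        simpa using (Real.hasDerivAt_log this.ne').fun_sub
          (((hasDerivAt_id' t).add_const R⁻¹).log (by positivity))) fun t ht =>
        sub_nonneg.2 (inv_anti₀ (hi.trans_le ht.1) (by linarith))]
      refine le_trans (ENNReal.ofReal_le_ofReal ?_) ENNReal.ofReal_add_le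
      rw [← two_mul, Real.log_mul two_ne_zero hi.ne', show δ + R⁻¹ = δ * (1 + R⁻¹ * δ⁻¹) by
        field_simp, Real.log_mul hδ.ne' (by positivity)]
      linarith
    · exact zero_le
  have e4 : ∫⁻ t in W ∩ Set.Ioo R⁻¹ R, ENNReal.ofReal (t + R)⁻¹ ≤
      (if b1 then lg else 0) + ENNReal.ofReal (R⁻¹ * δ⁻¹) := by
    split_ifs with h
    · refine (lintegral_mono_set (t := Set.Ioo 0 R) fun t ht =>
        ⟨hi.trans ht.2.1, ht.2.2⟩).trans (le_add_right ?_)
      rw [e2 R hR.le, inv_mul_cancel₀ hR.ne', one_add_one_eq_two, lg]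
    · refine (lintegral_mono_set (t := Set.Ioo 0 δ⁻¹) fun t ht =>
        ⟨hi.trans ht.2.1, p1 h t ht.1⟩).trans ?_
      rw [e2 _ (by positivity), zero_add]
      exact ENNReal.ofReal_le_ofReal lo
  refine (add_le_add_right e3 _).trans ?_
  rw [← add_assoc, e1, two_mul, ← add_assoc, add_assoc _ (ite _ _ _)]
  gcongr

theorem fin_two (W : Set ℝ) {R : ℝ} (hR : 0 < R) :
    ∫⁻ t in W ∩ Set.Ioo R⁻¹ R, ENNReal.ofReal ((t + R⁻¹)⁻¹ - (2 * t)⁻¹) ≠ ⊤ := by
  refine ne_top_of_le_ne_top ?_ ((lintegral_mono_set inter_subset_right).trans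
    (setLIntegral_mono' (g := fun _ => ENNReal.ofReal R) measurableSet_Ioo fun t ht =>
      ENNReal.ofReal_le_ofReal ?_))
  · simp [ENNReal.mul_eq_top]
  · have := (inv_pos.2 hR).trans ht.1
    have : (t + R⁻¹)⁻¹ ≤ R := inv_le_of_inv_le₀ hR (by linarith)
    have : 0 < (2 * t)⁻¹ := by positivity
    linarith

/-- The invariant measure on pairs of points of the line. -/
noncomputable def nu : Measure (ℝ × ℝ) := (volume.prod volume).withDensity fun p => K p.1 p.2

theorem meas_K : Measurable fun p : ℝ × ℝ => K p.1 p.2 := by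
  unfold K
  fun_prop

theorem nu_apply {E : Set (ℝ × ℝ)} (hE : MeasurableSet E) :
    nu E = ∫⁻ x, ∫⁻ z in Prod.mk x ⁻¹' E, K x z := by
  rw [nu, withDensity_apply _ hE, ← lintegral_indicator hE,
    lintegral_prod _ (meas_K.indicator hE).aemeasurable]
  exact lintegral_congr fun x => lintegral_indicator (measurable_prodMk_left hE) _

theorem nu_swap {E : Set (ℝ × ℝ)} (hE : MeasurableSet E) : nu (Prod.swap ⁻¹' E) = nu E := by
  rw [nu, withDensity_apply _ hE, withDensity_apply _ (measurable_swap hE),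
    ← lintegral_indicator hE, ← lintegral_indicator (measurable_swap hE), ← lintegral_prod_swap]
  refine lintegral_congr fun p => ?_
  by_cases h : p ∈ E
  · rw [indicator_of_mem h, indicator_of_mem (by simpa using h), K, K, ← neg_sub, inv_neg, neg_sq]
    rfl
  · rw [indicator_of_notMem h, indicator_of_notMem (by simpa using h)]

end Pool.Agent.Lib.MP_09d3b1_an.Sharp
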