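import Mathlib

/-!
A rational function with interlacing zeros and poles, and its level sets.
-/

set_option autoImplicit false

open Set Finset

namespace Pool.Agent.Lib.MP_09d3b1_an.Sharp

variable {l : ℕ} {e : Fin l → ℝ} {c y : Fin (l + 1) → ℝ} {k k' : Fin (l + 1)} {x x' a b : ℝ}

/-- The `k`-th interval between consecutive poles. -/
def Br (e : Fin l → ℝ) (k : Fin (l + 1)) : Set ℝ :=
  {x | ∀ j : Fin l, (j.castSucc < k → e j < x) ∧ (k ≤ j.castSucc → x < e j)}

/-- The rational function with zeros `y` and poles `e`. -/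
noncomputable def rat (y : Fin (l + 1) → ℝ) (e : Fin l → ℝ) (x : ℝ) : ℝ :=
  (∏ k, (x - y k)) / ∏ j, (x - e j)

theorem Br_ne (h : x ∈ Br e k) (j : Fin l) : x - e j ≠ 0 := by
  rcases lt_or_ge j.castSucc k with a | a
  exacts [(sub_pos.2 ((h j).1 a)).ne', (sub_neg.2 ((h j).2 a)).ne]

theorem isOpen_Br : IsOpen (Br e k) := by
  rw [Br, ofPred_forall]
  refine isOpen_iInter_of_finite fun j => ?_
  rcases lt_or_ge j.castSucc k with a | a
  · simpa [a, a.not_ge] using isOpen_lt' (e j)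
  · simpa [a, a.not_gt] using isOpen_gt' (e j)

theorem Br_mid (h : x ∈ Br e k) (h' : x' ∈ Br e k) {z : ℝ} (a : x ≤ z) (b : z ≤ x') :
    z ∈ Br e k := fun j => ⟨fun i => ((h j).1 i).trans_le a, fun i => b.trans_lt ((h' j).2 i)⟩

theorem Br_lt (h : x ∈ Br e k) (h' : x' ∈ Br e k') (a : k < k') : x < x' :=
  ((h ⟨k, by omega⟩).2 le_rfl).trans ((h' ⟨k, by omega⟩).1 a)

theorem Br_eq (h : x ∈ Br e k) (h' : x ∈ Br e k') : k = k' :=
  le_antisymm (not_lt.1 fun a => (Br_lt h' h a).false) (not_lt.1 fun a => (Br_lt h h' a).false)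

theorem e_mono (hc : ∀ k, c k ∈ Br e k) {i j : Fin l} (h : i ≤ j) : e i ≤ e j := by
  rcases h.eq_or_lt with rfl | h
  · rfl
  · exact (((hc j.castSucc i).1 h).trans ((hc j.castSucc j).2 le_rfl)).le

theorem exists_Br (hc : ∀ k, c k ∈ Br e k) (h : ∀ j, x ≠ e j) : ∃ k, x ∈ Br e k := by
  obtain ⟨k, a, b⟩ := wellFounded_lt.has_min {k : Fin (l + 1) | ∀ j : Fin l, k ≤ j.castSucc → x < e j}
    ⟨Fin.last l, fun j i => absurd i (Fin.castSucc_lt_last j).not_ge⟩
  refine ⟨k, fun j => ⟨fun i => lt_of_not_ge fun d => b j.castSucc (fun j' i' => ?_) i, a j⟩⟩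
  exact (d.lt_of_ne (h j)).trans_le (e_mono hc i')

theorem far (hy : ∀ k, y k ∈ Br e k) (k : Fin (l + 1)) (j : Fin l) :
    (j.castSucc < k → y (k.succAbove j) < e j) ∧ (k ≤ j.castSucc → e j < y (k.succAbove j)) :=
  ⟨fun a => by rw [Fin.succAbove_of_castSucc_lt _ _ a]; exact (hy _ j).2 le_rfl,
    fun a => by rw [Fin.succAbove_of_le_castSucc _ _ a]; exact (hy _ j).1 j.castSucc_lt_succ⟩

theorem rat_eq (hy : ∀ k, y k ∈ Br e k) (h : x ∈ Br e k) : ∃ w, 0 < w ∧ rat y e x = (x - y k) * w := by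
  refine ⟨∏ j, (x - y (k.succAbove j)) / (x - e j), prod_pos fun j _ => ?_, by
    rw [rat, Fin.prod_univ_succAbove _ k, prod_div_distrib, mul_div_assoc]⟩
  rcases lt_or_ge j.castSucc k with a | a
  · have := (h j).1 a
    exact div_pos (by linarith [(far hy k j).1 a]) (by linarith)
  · have := (h j).2 a
    exact div_pos_of_neg_of_neg (by linarith [(far hy k j).2 a]) (by linarith)

theorem exists_root (hc : ∀ k, c k ∈ Br e k) (a : ℝ) (k : Fin (l + 1)) :
    ∃ x ∈ Br e k, ∏ i, (x - c i) - a * ∏ j, (x - e j) = 0 := by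
  let σ : Fin l → ℝ := fun j => if j.castSucc < k then 1 else -1
  let g : ℝ → ℝ := fun x => (x - c k) * ∏ j, σ j * (x - c (k.succAbove j)) -
    a * ∏ j, σ j * (x - e j)
  let Cb : ℝ → Prop := fun x => ∀ j : Fin l, (j.castSucc < k → e j ≤ x) ∧ (k ≤ j.castSucc → x ≤ e j)
  have key : ∀ x, Cb x → 0 < ∏ j, σ j * (x - c (k.succAbove j)) ∧ (|a| ≤ |x - c k| →
      |a * ∏ j, σ j * (x - e j)| ≤ |a| * ∏ j, σ j * (x - c (k.succAbove j))) := fun x hx => by
    have : ∀ j, 0 ≤ σ j * (x - e j) ∧ σ j * (x - e j) < σ j * (x - c (k.succAbove j)) := fun j => by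
      rcases lt_or_ge j.castSucc k with i | i
      · simp only [σ, if_pos i]
        constructor <;> linarith [(hx j).1 i, (far hc k j).1 i]
      · simp only [σ, if_neg i.not_gt]
        constructor <;> linarith [(hx j).2 i, (far hc k j).2 i]
    refine ⟨prod_pos fun j _ => (this j).1.trans_lt (this j).2, fun _ => ?_⟩
    rw [abs_mul, abs_of_nonneg (prod_nonneg fun j _ => (this j).1)]
    exact mul_le_mul_of_nonneg_left (prod_le_prod (fun j _ => (this j).1) fun j _ => (this j).2.le)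
      (abs_nonneg a)
  have z : ∀ j, ∏ i, σ i * (e j - e i) = 0 := fun j => prod_eq_zero (mem_univ j) (by simp)
  obtain ⟨hi, h1, h2, h3⟩ : ∃ hi, Cb hi ∧ c k < hi ∧ 0 < g hi := by
    rcases k.eq_castSucc_or_eq_last with ⟨j, rfl⟩ | rfl
    · have p : Cb (e j) := fun i => ⟨fun d => e_mono hc (le_of_lt d), fun d => e_mono hc d⟩
      have q := (hc j.castSucc j).2 le_rfl
      exact ⟨e j, p, q, by simpa only [g, z, mul_zero, sub_zero] using mul_pos (sub_pos.2 q) (key _ p).1⟩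
    · have p : Cb (c (Fin.last l) + |a| + 1) := fun i => ⟨fun d => by
        linarith [(hc _ i).1 d, abs_nonneg a], fun d => absurd d (Fin.castSucc_lt_last i).not_ge⟩
      obtain ⟨q, r⟩ := key _ p
      have := (le_abs_self _).trans (r (le_abs.2 (.inl (by linarith))))
      exact ⟨_, p, by linarith [abs_nonneg a], by simp only [g]; nlinarith⟩
  obtain ⟨lo, l1, l2, l3⟩ : ∃ lo, Cb lo ∧ lo < c k ∧ g lo < 0 := by
    rcases k.eq_zero_or_eq_succ with rfl | ⟨j, rfl⟩
    · have p : Cb (c 0 - |a| - 1) := fun i => ⟨fun d => absurd d (Fin.not_lt_zero _), fun d => by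
        linarith [(hc _ i).2 d, abs_nonneg a]⟩
      obtain ⟨q, r⟩ := key _ p
      have := (neg_le_abs _).trans (r (le_abs.2 (.inr (by linarith))))
      exact ⟨_, p, by linarith [abs_nonneg a], by simp only [g]; nlinarith⟩
    · have p : Cb (e j) := fun i => ⟨fun d => e_mono hc (Fin.castSucc_lt_succ_iff.1 d),
        fun d => e_mono hc (Fin.succ_le_castSucc_iff.1 d).le⟩
      have q := (hc j.succ j).1 j.castSucc_lt_succ
      exact ⟨e j, p, q, by
        simpa only [g, z, mul_zero, sub_zero] using mul_neg_of_neg_of_pos (sub_neg.2 q) (key _ p).1⟩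
  obtain ⟨x, hx, h0⟩ := intermediate_value_Ioo (l2.trans h2).le (f := g) (by fun_prop) ⟨l3, h3⟩
  refine ⟨x, fun j => ⟨fun i => ((l1 j).1 i).trans_lt hx.1, fun i => hx.2.trans_le ((h1 j).2 i)⟩, ?_⟩
  have s : ∏ j, σ j ≠ 0 := prod_ne_zero_iff.2 fun j _ => by
    simp only [σ]
    split_ifs <;> norm_num
  refine mul_left_cancel₀ s ?_
  simp only [g, prod_mul_distrib] at h0
  rw [Fin.prod_univ_succAbove _ k]
  linear_combination h0

theorem exists_level (hc : ∀ k, c k ∈ Br e k) (a : ℝ) : ∃ y : Fin (l + 1) → ℝ,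
    (∀ k, y k ∈ Br e k) ∧ ∀ x, (∀ j, x - e j ≠ 0) → rat c e x - a = rat y e x := by
  choose y hy h0 using exists_root hc a
  refine ⟨y, hy, fun x hx => ?_⟩
  have d : ∀ z : Fin (l + 1) → ℝ, (∏ k, (Polynomial.X - Polynomial.C (z k))).degree =
      ((l + 1 : ℕ) : WithBot ℕ) := fun z => by simp [Polynomial.degree_prod]
  have m : ∀ z : Fin (l + 1) → ℝ, (∏ k, (Polynomial.X - Polynomial.C (z k))).Monic :=
    fun z => Polynomial.monic_prod_of_monic _ _ fun _ _ => Polynomial.monic_X_sub_C _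
  have := Polynomial.eq_zero_of_degree_lt_of_eval_index_eq_zero (s := Finset.univ) (v := y)
    (f := ∏ k, (.X - .C (c k)) - ∏ k, (.X - .C (y k)) - .C a * ∏ j, (.X - .C (e j)))
    (fun i _ j _ h => Br_eq (hy i) (h ▸ hy j)) (by
      rw [card_univ, Fintype.card_fin]
      refine (Polynomial.degree_sub_le _ _).trans_lt (max_lt ?_ ?_)
      · exact (Polynomial.degree_sub_lt_left ((d c).trans (d y).symm) (m c).ne_zero
          ((m c).trans (m y).symm)).trans_eq (d c)
      · rw [← Polynomial.smul_eq_C_mul]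
        refine (Polynomial.degree_smul_le _ _).trans_lt ?_
        simp [Polynomial.degree_prod]
        exact_mod_cast l.lt_succ_self) fun i _ => by
      simp only [Polynomial.eval_sub, Polynomial.eval_mul, Polynomial.eval_prod, Polynomial.eval_X,
        Polynomial.eval_C]
      rw [prod_eq_zero (f := fun k => y i - y k) (mem_univ i) (sub_self _), sub_zero, h0]
  have := congrArg (Polynomial.eval x) this
  simp only [Polynomial.eval_sub, Polynomial.eval_mul, Polynomial.eval_prod, Polynomial.eval_X,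
    Polynomial.eval_C, Polynomial.eval_zero] at this
  rw [rat, rat, div_sub' (prod_ne_zero_iff.2 fun j _ => hx j)]
  congr 1
  linarith

theorem deriv_prod {ι : Type} (s : Finset ι) (z : ι → ℝ) (h : ∀ i ∈ s, x - z i ≠ 0) :
    HasDerivAt (fun x => ∏ i ∈ s, (x - z i)) ((∏ i ∈ s, (x - z i)) * ∑ i ∈ s, (x - z i)⁻¹) x := by
  classical
  induction s using Finset.induction_on with
  | empty => simpa using hasDerivAt_const x (1 : ℝ)
  | insert i s hi ih =>
    simp only [prod_insert hi, sum_insert hi]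
    have := h i (mem_insert_self _ _)
    refine (((hasDerivAt_id' x).sub_const (z i)).fun_mul
      (ih fun j hj => h j (mem_insert_of_mem hj))).congr_deriv ?_
    field_simp

theorem deriv_rat (hx : ∀ j, x - e j ≠ 0) (hy : rat y e x ≠ 0) :
    HasDerivAt (rat y e) (rat y e x * (∑ k, (x - y k)⁻¹ - ∑ j, (x - e j)⁻¹)) x := by
  have q := prod_ne_zero_iff.2 fun j (_ : j ∈ Finset.univ) => hx j
  refine ((deriv_prod Finset.univ y (prod_ne_zero_iff.1 (div_ne_zero_iff.1 hy).1)).fun_div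
    (deriv_prod Finset.univ e fun j _ => hx j) q).congr_deriv ?_
  rw [rat]
  field_simp

/-- The level points of the rational function. -/
structure Lv (c : Fin (l + 1) → ℝ) (e : Fin l → ℝ) (Y : ℝ → Fin (l + 1) → ℝ) : Prop where
  hc : ∀ k, c k ∈ Br e k
  mem : ∀ a k, Y a k ∈ Br e k
  eq : ∀ a x, (∀ j, x - e j ≠ 0) → rat c e x - a = rat (Y a) e x

theorem exists_Lv (hc : ∀ k, c k ∈ Br e k) : ∃ Y, Lv c e Y := by
  choose Y a b using exists_level hc
  exact ⟨Y, hc, a, b⟩

variable {Y : ℝ → Fin (l + 1) → ℝ} (L : Lv c e Y)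
include L

theorem Lv.lt_iff (h : x ∈ Br e k) : a < rat c e x ↔ Y a k < x := by
  obtain ⟨w, p, q⟩ := rat_eq (L.mem a) h
  rw [← sub_pos, L.eq a x (Br_ne h), q, mul_pos_iff_of_pos_right p, sub_pos]

theorem Lv.gt_iff (h : x ∈ Br e k) : rat c e x < a ↔ x < Y a k := by
  obtain ⟨w, p, q⟩ := rat_eq (L.mem a) h
  rw [← sub_neg, L.eq a x (Br_ne h), q, mul_neg_iff, sub_neg, sub_pos]
  simp [p, p.not_gt]

theorem Lv.apply (a : ℝ) (k : Fin (l + 1)) : rat c e (Y a k) = a :=
  le_antisymm (not_lt.1 fun h => ((L.lt_iff (L.mem a k)).1 h).false)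
    (not_lt.1 fun h => ((L.gt_iff (L.mem a k)).1 h).false)

theorem Lv.left (h : x ∈ Br e k) : Y (rat c e x) k = x :=
  le_antisymm (not_lt.1 fun a => ((L.gt_iff h).2 a).false) (not_lt.1 fun a => ((L.lt_iff h).2 a).false)

theorem Lv.mono (h : a ≤ b) (k : Fin (l + 1)) : Y a k ≤ Y b k :=
  not_lt.1 fun d => ((L.gt_iff (L.mem b k)).2 d).not_ge (by rwa [L.apply])

theorem Lv.deriv (hx : ∀ j, x - e j ≠ 0) (ha : rat c e x ≠ a) : HasDerivAt (rat c e)
    ((rat c e x - a) * (∑ k, (x - Y a k)⁻¹ - ∑ j, (x - e j)⁻¹)) x := by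
  have := (deriv_rat hx (L.eq a x hx ▸ sub_ne_zero.2 ha)).add_const a
  rw [← L.eq a x hx] at this
  refine this.congr_of_eventuallyEq ?_
  filter_upwards [Filter.eventually_all.2 fun j =>
    (show ContinuousAt (fun x => x - e j) x by fun_prop).eventually_ne (hx j)] with z hz
  rw [← L.eq a z hz, sub_add_cancel]

theorem Lv.level (hab : 0 < a ∨ b < 0) :
    {z | a < rat c e z ∧ rat c e z < b} = ⋃ k, Ioo (Y a k) (Y b k) := by
  ext z
  simp only [mem_ofPred_eq, mem_iUnion, Set.mem_Ioo]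
  constructor
  · intro h
    obtain ⟨k, hk⟩ := exists_Br (x := z) L.hc fun j d => by
      rw [rat, prod_eq_zero (f := fun j => z - e j) (mem_univ j) (sub_eq_zero.2 d), div_zero] at h
      rcases hab with i | i <;> linarith [h.1, h.2]
    exact ⟨k, (L.lt_iff hk).1 h.1, (L.gt_iff hk).1 h.2⟩
  · rintro ⟨k, p, q⟩
    have := Br_mid (L.mem a k) (L.mem b k) p.le q.le
    exact ⟨(L.lt_iff this).2 p, (L.gt_iff this).2 q⟩

end Pool.Agent.Lib.MP_09d3b1_an.Sharp
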